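import Mathlib

namespace Pool.Agent.Lib.MP_da621d_pr

open MeasureTheory ProbabilityTheory Set
open scoped ENNReal NNReal

theorem pi_withDensity {ι α : Type*} [Fintype ι] [MeasurableSpace α] {μ : Measure α}
    [SigmaFinite μ] (f : α → ℝ) (hf : Integrable f μ) (hf0 : ∀ x, 0 ≤ f x) :
    Measure.pi (fun _ : ι => μ.withDensity (fun x => ENNReal.ofReal (f x))) =
      (Measure.pi (fun _ : ι => μ)).withDensity (fun x => ENNReal.ofReal (∏ i, f (x i))) := by
  have : IsFiniteMeasure (μ.withDensity (fun x => ENNReal.ofReal (f x))) :=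
    isFiniteMeasure_withDensity_ofReal hf.2
  apply Measure.pi_eq
  intro s hs
  rw [withDensity_apply _ (MeasurableSet.univ_pi hs), ← lintegral_indicator (MeasurableSet.univ_pi hs)]
  have h1 : ∀ x : ι → α, (Set.univ.pi s).indicator
      (fun x => ENNReal.ofReal (∏ i, f (x i))) x =
      ENNReal.ofReal (∏ i, (s i).indicator f (x i)) := by
    intro x
    by_cases hx : x ∈ Set.univ.pi s
    · rw [Set.indicator_of_mem hx]
      congr 1
      apply Finset.prod_congr rfl
      intro i _
      rw [Set.indicator_of_mem (hx i (Set.mem_univ i))]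
    · rw [Set.indicator_of_notMem hx]
      rw [Set.mem_univ_pi] at hx
      push Not at hx
      obtain ⟨i, hi⟩ := hx
      rw [Finset.prod_eq_zero (Finset.mem_univ i) (Set.indicator_of_notMem hi f)]
      simp
  simp_rw [h1]
  rw [← ofReal_integral_eq_lintegral_ofReal]
  · rw [integral_fintype_prod_eq_prod (fun i => (s i).indicator f), ENNReal.ofReal_prod_of_nonneg]
    · apply Finset.prod_congr rfl
      intro i _
      rw [integral_indicator (hs i), withDensity_apply _ (hs i),
        ofReal_integral_eq_lintegral_ofReal hf.restrict (ae_of_all _ hf0)]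
    · intro i _
      exact integral_nonneg fun x => Set.indicator_nonneg (fun y _ => hf0 y) x
  · exact Integrable.fintype_prod (fun i => hf.indicator (hs i))
  · exact ae_of_all _ fun x => Finset.prod_nonneg fun i _ =>
      Set.indicator_nonneg (fun y _ => hf0 y) _

/-- Standard Gaussian measure on `ι → ℝ`. -/
noncomputable def gam (ι : Type*) [Fintype ι] : Measure (ι → ℝ) :=
  Measure.pi (fun _ : ι => gaussianReal 0 1)

instance {ι : Type*} [Fintype ι] : IsProbabilityMeasure (gam ι) := by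
  unfold gam; infer_instance

/-- Standard Gaussian measure on matrices. -/
noncomputable def gam2 (ι κ : Type*) [Fintype ι] [Fintype κ] : Measure (ι → κ → ℝ) :=
  Measure.pi (fun _ : ι => gam κ)

instance {ι κ : Type*} [Fintype ι] [Fintype κ] : IsProbabilityMeasure (gam2 ι κ) := by
  unfold gam2; infer_instance

/-- The real density of the standard Gaussian vector. -/
noncomputable def phi {ι : Type*} [Fintype ι] (x : ι → ℝ) : ℝ :=
  ∏ i, gaussianPDFReal 0 1 (x i)

/-- The real density of the standard Gaussian matrix. -/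
noncomputable def Phi {ι κ : Type*} [Fintype ι] [Fintype κ] (A : ι → κ → ℝ) : ℝ :=
  ∏ i, phi (A i)

theorem measurable_phi {ι : Type*} [Fintype ι] : Measurable (phi (ι := ι)) := by
  unfold phi
  exact Finset.measurable_prod _ fun i _ =>
    (measurable_gaussianPDFReal 0 1).comp (measurable_pi_apply i)

theorem measurable_Phi {ι κ : Type*} [Fintype ι] [Fintype κ] :
    Measurable (Phi (ι := ι) (κ := κ)) := by
  unfold Phi
  exact Finset.measurable_prod _ fun i _ => measurable_phi.comp (measurable_pi_apply i)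

theorem phi_pos {ι : Type*} [Fintype ι] (x : ι → ℝ) : 0 < phi x :=
  Finset.prod_pos fun _ _ => gaussianPDFReal_pos _ _ _ one_ne_zero

theorem Phi_pos {ι κ : Type*} [Fintype ι] [Fintype κ] (A : ι → κ → ℝ) : 0 < Phi A :=
  Finset.prod_pos fun _ _ => phi_pos _

theorem gam_eq {ι : Type*} [Fintype ι] :
    gam ι = (volume : Measure (ι → ℝ)).withDensity (fun x => ENNReal.ofReal (phi x)) := by
  unfold gam
  have h1 : gaussianReal 0 1 = (volume : Measure ℝ).withDensity
      (fun x => ENNReal.ofReal (gaussianPDFReal 0 1 x)) := by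
    rw [gaussianReal_of_var_ne_zero _ one_ne_zero]
    rfl
  rw [h1, pi_withDensity _ (integrable_gaussianPDFReal 0 1) (gaussianPDFReal_nonneg 0 1)]
  rfl

theorem integrable_phi {ι : Type*} [Fintype ι] : Integrable (phi (ι := ι)) := by
  unfold phi
  exact Integrable.fintype_prod (fun i => integrable_gaussianPDFReal 0 1)

theorem gam2_eq {ι κ : Type*} [Fintype ι] [Fintype κ] :
    gam2 ι κ = (volume : Measure (ι → κ → ℝ)).withDensity (fun x => ENNReal.ofReal (Phi x)) := by
  unfold gam2
  rw [gam_eq, pi_withDensity _ integrable_phi (fun x => (phi_pos x).le)]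
  rfl

/-- normalising constant -/
noncomputable def c0 : ℝ := (√(2 * Real.pi))⁻¹

theorem c0_pos : 0 < c0 := by unfold c0; positivity

theorem phi_eq {ι : Type*} [Fintype ι] (x : ι → ℝ) :
    phi x = c0 ^ (Fintype.card ι) * Real.exp (-(∑ i, x i ^ 2) / 2) := by
  unfold phi
  have h1 : ∀ i ∈ Finset.univ, gaussianPDFReal 0 1 (x i) = c0 * Real.exp (-(x i ^ 2) / 2) := by
    intro i _
    simp [gaussianPDFReal, c0]
  rw [Finset.prod_congr rfl h1, Finset.prod_mul_distrib, Finset.prod_const, Finset.card_univ,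
    ← Real.exp_sum]
  congr 2
  rw [← Finset.sum_div, Finset.sum_neg_distrib]

theorem Phi_eq {ι κ : Type*} [Fintype ι] [Fintype κ] (A : ι → κ → ℝ) :
    Phi A = c0 ^ (Fintype.card ι * Fintype.card κ) *
      Real.exp (-(∑ i, ∑ j, A i j ^ 2) / 2) := by
  unfold Phi
  simp_rw [phi_eq]
  rw [Finset.prod_mul_distrib, Finset.prod_const, Finset.card_univ, ← Real.exp_sum, ← pow_mul,
    mul_comm (Fintype.card ι)]
  congr 2
  rw [← Finset.sum_div, Finset.sum_neg_distrib]

theorem lintegral_gam2 {ι κ : Type*} [Fintype ι] [Fintype κ] (f : (ι → κ → ℝ) → ℝ≥0∞)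
    (hf : Measurable f) :
    ∫⁻ A, f A ∂(gam2 ι κ) = ∫⁻ A, ENNReal.ofReal (Phi A) * f A := by
  rw [gam2_eq, lintegral_withDensity_eq_lintegral_mul _ measurable_Phi.ennreal_ofReal hf]
  rfl

/-- transposition -/
def tr {ι κ : Type*} (A : ι → κ → ℝ) : κ → ι → ℝ := fun j i => A i j

theorem measurable_tr {ι κ : Type*} : Measurable (tr (ι := ι) (κ := κ)) := by
  unfold tr; fun_prop

theorem map_tr_gam2 {ι κ : Type*} [Fintype ι] [Fintype κ] :
    (gam2 ι κ).map tr = gam2 κ ι := by
  have h1 : gam2 ι κ = (Measure.infinitePi (fun _ : ι × κ => gaussianReal 0 1)).map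
      (MeasurableEquiv.curry ι κ ℝ) := by
    rw [Measure.infinitePi_map_curry (fun (_ : ι) (_ : κ) => gaussianReal 0 1)]
    unfold gam2 gam
    simp only [Measure.infinitePi_eq_pi]
  have h2 : gam2 κ ι = (Measure.infinitePi (fun _ : κ × ι => gaussianReal 0 1)).map
      (MeasurableEquiv.curry κ ι ℝ) := by
    rw [Measure.infinitePi_map_curry (fun (_ : κ) (_ : ι) => gaussianReal 0 1)]
    unfold gam2 gam
    simp only [Measure.infinitePi_eq_pi]
  rw [h1, h2, Measure.map_map measurable_tr (MeasurableEquiv.measurable _)]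
  have h3 : Measure.infinitePi (fun _ : κ × ι => gaussianReal 0 1) =
      (Measure.infinitePi (fun _ : ι × κ => gaussianReal 0 1)).map
        (MeasurableEquiv.piCongrLeft (fun _ => ℝ) (Equiv.prodComm ι κ)) :=
    (Measure.infinitePi_map_piCongrLeft (fun _ : κ × ι => gaussianReal 0 1)
      (Equiv.prodComm ι κ)).symm
  rw [h3, Measure.map_map (MeasurableEquiv.measurable _) (MeasurableEquiv.measurable _)]
  congr 1

theorem Phi_tr {ι κ : Type*} [Fintype ι] [Fintype κ] (A : ι → κ → ℝ) : Phi (tr A) = Phi A := by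
  unfold Phi phi tr
  exact Finset.prod_comm

theorem lintegral_vol_eq {ι κ : Type*} [Fintype ι] [Fintype κ] (g : (ι → κ → ℝ) → ℝ≥0∞)
    (hg : Measurable g) :
    ∫⁻ A : ι → κ → ℝ, g A = ∫⁻ A, (ENNReal.ofReal (Phi A))⁻¹ * g A ∂(gam2 ι κ) := by
  rw [lintegral_gam2 (fun A => (ENNReal.ofReal (Phi A))⁻¹ * g A)
    (measurable_Phi.ennreal_ofReal.inv.mul hg)]
  apply lintegral_congr
  intro A
  rw [← mul_assoc, ENNReal.mul_inv_cancel, one_mul]
  · exact (ENNReal.ofReal_pos.mpr (Phi_pos A)).ne'
  · exact ENNReal.ofReal_ne_top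

theorem lintegral_tr {ι κ : Type*} [Fintype ι] [Fintype κ] (f : (κ → ι → ℝ) → ℝ≥0∞)
    (hf : Measurable f) :
    ∫⁻ A : ι → κ → ℝ, f (tr A) = ∫⁻ A : κ → ι → ℝ, f A := by
  rw [lintegral_vol_eq (fun A => f (tr A)) (hf.comp measurable_tr), lintegral_vol_eq f hf,
    ← map_tr_gam2 (ι := ι) (κ := κ),
    lintegral_map (f := fun A => (ENNReal.ofReal (Phi A))⁻¹ * f A)
      (measurable_Phi.ennreal_ofReal.inv.mul hf) measurable_tr]
  simp only [Phi_tr]

end Pool.Agent.Lib.MP_da621d_pr
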