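import Mathlib
import Pool.Agent.Lib.MP_da621d_pr.Basic

namespace Pool.Agent.Lib.MP_da621d_pr

open MeasureTheory ProbabilityTheory Set
open scoped ENNReal NNReal

/-- `h(s) = P(|Z| < s)`. -/
noncomputable def hh (s : ℝ) : ℝ := (gaussianReal 0 1).real {z | |z| < s}

theorem hh_nonneg (s : ℝ) : 0 ≤ hh s := measureReal_nonneg

theorem hh_le_one (s : ℝ) : hh s ≤ 1 := measureReal_le_one

theorem hh_mono : Monotone hh := by
  intro s t hst
  apply measureReal_mono _ (measure_ne_top _ _)
  intro z hz
  exact lt_of_lt_of_le hz hst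

theorem hh_of_nonpos {s : ℝ} (hs : s ≤ 0) : hh s = 0 := by
  unfold hh
  have : {z : ℝ | |z| < s} = ∅ := by
    ext z
    simp only [Set.mem_ofPred_eq, Set.mem_empty_iff_false, iff_false, not_lt]
    exact hs.trans (abs_nonneg z)
  rw [this]
  simp

theorem pdf_eq (x : ℝ) : gaussianPDFReal 0 1 x = c0 * Real.exp (-(x ^ 2) / 2) := by
  simp [gaussianPDFReal, c0]

theorem pdf_le (x : ℝ) : gaussianPDFReal 0 1 x ≤ c0 := by
  rw [pdf_eq]
  have h1 : Real.exp (-(x ^ 2) / 2) ≤ 1 := by
    rw [Real.exp_le_one_iff]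
    nlinarith [sq_nonneg x]
  have := c0_pos
  nlinarith

theorem pdf_anti {x s : ℝ} (h : |x| ≤ s) : c0 * Real.exp (-(s ^ 2) / 2) ≤ gaussianPDFReal 0 1 x := by
  rw [pdf_eq]
  apply mul_le_mul_of_nonneg_left _ c0_pos.le
  apply Real.exp_le_exp.mpr
  have : x ^ 2 ≤ s ^ 2 := by
    rw [← sq_abs x]
    exact pow_le_pow_left₀ (abs_nonneg _) h 2
  linarith

theorem hh_eq (s : ℝ) : hh s = ∫ x in Ioo (-s) s, gaussianPDFReal 0 1 x := by
  unfold hh Measure.real
  have h1 : {z : ℝ | |z| < s} = Ioo (-s) s := by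
    ext z; rw [Set.mem_ofPred_eq, abs_lt, Set.mem_Ioo]
  rw [h1, gaussianReal_apply_eq_integral _ one_ne_zero, ENNReal.toReal_ofReal]
  exact integral_nonneg fun x => gaussianPDFReal_nonneg _ _ _

theorem hh_le (s : ℝ) (hs : 0 ≤ s) : hh s ≤ 2 * c0 * s := by
  rw [hh_eq s]
  calc ∫ x in Ioo (-s) s, gaussianPDFReal 0 1 x ≤ ∫ x in Ioo (-s) s, c0 := by
        apply setIntegral_mono_on (integrable_gaussianPDFReal _ _).integrableOn
          (integrableOn_const (by simp)) measurableSet_Ioo
        intro x _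
        exact pdf_le x
    _ = 2 * c0 * s := by
        rw [setIntegral_const, Measure.real, Real.volume_Ioo, ENNReal.toReal_ofReal (by linarith),
          smul_eq_mul]
        ring

theorem le_hh (s : ℝ) (hs : 0 ≤ s) : 2 * c0 * Real.exp (-(s ^ 2) / 2) * s ≤ hh s := by
  rw [hh_eq s]
  calc 2 * c0 * Real.exp (-(s ^ 2) / 2) * s = ∫ x in Ioo (-s) s, c0 * Real.exp (-(s ^ 2) / 2) := by
        rw [setIntegral_const, Measure.real, Real.volume_Ioo, ENNReal.toReal_ofReal (by linarith),
          smul_eq_mul]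
        ring
    _ ≤ ∫ x in Ioo (-s) s, gaussianPDFReal 0 1 x := by
        apply setIntegral_mono_on (integrableOn_const (by simp))
          (integrable_gaussianPDFReal _ _).integrableOn measurableSet_Ioo
        intro x hx
        exact pdf_anti (abs_le.mpr ⟨hx.1.le, hx.2.le⟩)

/-- `c₁ = 2 φ(1)`. -/
noncomputable def c1 : ℝ := 2 * c0 * Real.exp (-1 / 2)

theorem c1_pos : 0 < c1 := by
  have := c0_pos
  unfold c1
  positivity

theorem c1_min_le (s : ℝ) (hs : 0 ≤ s) : c1 * min s 1 ≤ hh s := by
  have h0 : ∀ u : ℝ, 0 ≤ u → u ≤ 1 → c1 * u ≤ hh u := by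
    intro u hu hu1
    refine le_trans ?_ (le_hh u hu)
    unfold c1
    apply mul_le_mul_of_nonneg_right _ hu
    apply mul_le_mul_of_nonneg_left _ (by have := c0_pos; positivity)
    apply Real.exp_le_exp.mpr
    have : u ^ 2 ≤ 1 := by nlinarith
    linarith
  rcases le_total s 1 with h | h
  · rw [min_eq_left h]
    exact h0 s hs h
  · rw [min_eq_right h]
    exact (h0 1 (by norm_num) le_rfl).trans (hh_mono h)

theorem hh_le_max (s : ℝ) : hh s ≤ 2 * c0 * max s 0 := by
  rcases le_total 0 s with h | h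
  · rw [max_eq_left h]; exact hh_le s h
  · rw [max_eq_right h, hh_of_nonpos h]; simp

theorem tendsto_hh (a : ℝ) :
    Filter.Tendsto (fun d : ℕ => (d : ℝ) * hh (a / d)) Filter.atTop (nhds (2 * c0 * max a 0)) := by
  rcases le_total a 0 with h | h
  · rw [max_eq_right h, mul_zero]
    have : ∀ d : ℕ, (d : ℝ) * hh (a / d) = 0 := by
      intro d
      rw [hh_of_nonpos (div_nonpos_of_nonpos_of_nonneg h (Nat.cast_nonneg d)), mul_zero]
    simp_rw [this]
    exact tendsto_const_nhds
  · rw [max_eq_left h]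
    have h1 : Filter.Tendsto (fun d : ℕ => 2 * c0 * Real.exp (-((a / d) ^ 2) / 2) * a)
        Filter.atTop (nhds (2 * c0 * a)) := by
      have h2 : Filter.Tendsto (fun d : ℕ => a / (d : ℝ)) Filter.atTop (nhds 0) :=
        tendsto_const_div_atTop_nhds_zero_nat a
      have h3 : Continuous (fun s : ℝ => 2 * c0 * Real.exp (-(s ^ 2) / 2) * a) := by fun_prop
      have h4 := (h3.tendsto 0).comp h2
      simp only [ne_eq, OfNat.ofNat_ne_zero, not_false_eq_true, zero_pow, neg_zero, zero_div,
        Real.exp_zero, mul_one] at h4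
      exact h4
    apply tendsto_of_tendsto_of_tendsto_of_le_of_le' h1 tendsto_const_nhds
    · filter_upwards [Filter.eventually_gt_atTop 0] with d hd
      have hd' : (0 : ℝ) < d := by exact_mod_cast hd
      have h5 := le_hh (a / d) (by positivity)
      calc 2 * c0 * Real.exp (-((a / d) ^ 2) / 2) * a =
            d * (2 * c0 * Real.exp (-((a / d) ^ 2) / 2) * (a / d)) := by field_simp
        _ ≤ d * hh (a / d) := mul_le_mul_of_nonneg_left h5 hd'.le
    · filter_upwards [Filter.eventually_gt_atTop 0] with d hd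
      have hd' : (0 : ℝ) < d := by exact_mod_cast hd
      have h5 := hh_le (a / d) (by positivity)
      calc d * hh (a / d) ≤ d * (2 * c0 * (a / d)) := mul_le_mul_of_nonneg_left h5 hd'.le
        _ = 2 * c0 * a := by field_simp

theorem measurable_hh : Measurable hh := hh_mono.measurable

theorem gaussian_Ici_zero : (gaussianReal 0 1).real (Ici 0) ≤ 1 / 2 := by
  have h1 : (gaussianReal 0 1) (Ici 0) = (gaussianReal 0 1) (Iic 0) := by
    have h2 : (gaussianReal 0 1).map (fun x => -x) = gaussianReal 0 1 := by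
      have := gaussianReal_map_neg (μ := 0) (v := 1)
      rw [neg_zero] at this
      exact this
    conv_lhs => rw [← h2]
    rw [Measure.map_apply measurable_neg measurableSet_Ici]
    congr 1
    ext x
    simp
  have h3 : (gaussianReal 0 1) {0} = 0 := by
    have : NullSingletonClass (gaussianReal 0 1) := nullSingletonClass_gaussianReal one_ne_zero
    exact measure_singleton 0
  have h4 : (gaussianReal 0 1).real (Ici 0) + (gaussianReal 0 1).real (Iio 0) = 1 := by
    rw [← Set.compl_Ici, measureReal_add_measureReal_compl measurableSet_Ici]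
    simp
  have h5 : (gaussianReal 0 1) (Iio 0) = (gaussianReal 0 1) (Iic 0) := by
    have : NullSingletonClass (gaussianReal 0 1) := nullSingletonClass_gaussianReal one_ne_zero
    exact Iio_ae_eq_Iic.measure_eq
  have h6 : (gaussianReal 0 1).real (Iio 0) = (gaussianReal 0 1).real (Ici 0) := by
    unfold Measure.real
    rw [h5, h1]
  linarith

/-- `p₁ = P(X ≤ -1)`. -/
noncomputable def p1 : ℝ := (gaussianReal 0 1).real (Iic (-1))

theorem p1_pos : 0 < p1 := by
  unfold p1 Measure.real
  rw [ENNReal.toReal_pos_iff]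
  refine ⟨?_, measure_lt_top _ _⟩
  rw [gaussianReal_apply_eq_integral _ one_ne_zero, ENNReal.ofReal_pos]
  rw [setIntegral_pos_iff_support_of_nonneg_ae]
  · have : Function.support (gaussianPDFReal 0 1) = Set.univ := by
      ext x
      simp only [Function.mem_support, Set.mem_univ, iff_true]
      exact (gaussianPDFReal_pos _ _ _ one_ne_zero).ne'
    rw [this, Set.univ_inter]
    simp
  · exact ae_of_all _ fun x => gaussianPDFReal_nonneg _ _ _
  · exact (integrable_gaussianPDFReal _ _).integrableOn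

theorem p1_le_one : p1 ≤ 1 := measureReal_le_one

end Pool.Agent.Lib.MP_da621d_pr
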