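import Mathlib
import Pool.Agent.Lib.MP_da621d_pr.Hfun

namespace Pool.Agent.Lib.MP_da621d_pr

open MeasureTheory ProbabilityTheory Set Filter
open scoped ENNReal NNReal Topology

set_option linter.unusedSectionVars false

variable {ι : Type*} [Fintype ι] [Nonempty ι]

/-- `R(Γ,X) = max_i X_i / Γ_i`. -/
noncomputable def RR (Γ X : ι → ℝ) : ℝ :=
  Finset.univ.sup' Finset.univ_nonempty (fun i => X i / Γ i)

theorem measurable_RR : Measurable (fun p : (ι → ℝ) × (ι → ℝ) => RR p.1 p.2) := by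
  have h := Finset.measurable_sup' (s := (Finset.univ : Finset ι)) Finset.univ_nonempty
    (f := fun (i : ι) (p : (ι → ℝ) × (ι → ℝ)) => p.2 i / p.1 i)
    (fun i _ => by fun_prop)
  have h2 : (fun p : (ι → ℝ) × (ι → ℝ) => RR p.1 p.2) =
      (Finset.univ.sup' Finset.univ_nonempty
        (fun (i : ι) (p : (ι → ℝ) × (ι → ℝ)) => p.2 i / p.1 i)) := by
    ext p
    rw [Finset.sup'_apply]
    rfl
  rw [h2]
  exact h

theorem measurable_RR_right (Γ : ι → ℝ) : Measurable (fun X => RR Γ X) :=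
  measurable_RR.comp (measurable_const.prodMk measurable_id)

theorem le_RR (Γ X : ι → ℝ) (i : ι) : X i / Γ i ≤ RR Γ X :=
  Finset.le_sup' (fun i => X i / Γ i) (Finset.mem_univ i)

variable (π : Measure (ι → ℝ))

/-- `ρ = π ⊗ N(0,1)`. -/
noncomputable def rho : Measure ((ι → ℝ) × ℝ) := π.prod (gaussianReal 0 1)

instance [IsProbabilityMeasure π] : IsProbabilityMeasure (rho π) := by
  unfold rho; infer_instance

/-- twice the solid angle -/
noncomputable def AA (Γ : ι → ℝ) (y : ℝ) : ℝ :=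
  (rho π).real {p | ∀ i, |p.2| * Γ i ≤ |y| * p.1 i}

/-- one minus twice the solid angle -/
noncomputable def bet (Γ : ι → ℝ) (y : ℝ) : ℝ := ∫ X, hh (|y| * RR Γ X) ∂π

variable [IsProbabilityMeasure π]

theorem AA_nonneg (Γ : ι → ℝ) (y : ℝ) : 0 ≤ AA π Γ y := measureReal_nonneg

theorem AA_le_one (Γ : ι → ℝ) (y : ℝ) : AA π Γ y ≤ 1 := measureReal_le_one

theorem measurableSet_AA (Γ : ι → ℝ) (y : ℝ) :
    MeasurableSet {p : (ι → ℝ) × ℝ | ∀ i, |p.2| * Γ i ≤ |y| * p.1 i} := by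
  have : {p : (ι → ℝ) × ℝ | ∀ i, |p.2| * Γ i ≤ |y| * p.1 i} =
      ⋂ i, {p : (ι → ℝ) × ℝ | |p.2| * Γ i ≤ |y| * p.1 i} := by ext; simp
  rw [this]
  refine MeasurableSet.iInter fun i => ?_
  exact measurableSet_le (by fun_prop) (by fun_prop)

theorem measurable_AA : Measurable (fun q : (ι → ℝ) × ℝ => AA π q.1 q.2) := by
  unfold AA Measure.real
  apply Measurable.ennreal_toReal
  have hS : MeasurableSet {r : ((ι → ℝ) × ℝ) × ((ι → ℝ) × ℝ) |
      ∀ i, |r.2.2| * r.1.1 i ≤ |r.1.2| * r.2.1 i} := by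
    have : {r : ((ι → ℝ) × ℝ) × ((ι → ℝ) × ℝ) |
        ∀ i, |r.2.2| * r.1.1 i ≤ |r.1.2| * r.2.1 i} =
        ⋂ i, {r : ((ι → ℝ) × ℝ) × ((ι → ℝ) × ℝ) | |r.2.2| * r.1.1 i ≤ |r.1.2| * r.2.1 i} := by
      ext; simp
    rw [this]
    refine MeasurableSet.iInter fun i => ?_
    exact measurableSet_le (by fun_prop) (by fun_prop)
  exact measurable_measure_prodMk_left (ν := rho π) hS

theorem integrable_hh (Γ : ι → ℝ) (y : ℝ) : Integrable (fun X => hh (|y| * RR Γ X)) π := by
  apply Integrable.of_bound (C := 1)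
  · exact (measurable_hh.comp ((measurable_RR_right Γ).const_mul _)).aestronglyMeasurable
  · exact ae_of_all _ fun X => by
      rw [Real.norm_of_nonneg (hh_nonneg _)]; exact hh_le_one _

theorem measurable_bet : Measurable (fun q : (ι → ℝ) × ℝ => bet π q.1 q.2) := by
  unfold bet
  have h : StronglyMeasurable (fun r : ((ι → ℝ) × ℝ) × (ι → ℝ) => hh (|r.1.2| * RR r.1.1 r.2)) := by
    apply Measurable.stronglyMeasurable
    apply measurable_hh.comp
    apply Measurable.mul (by fun_prop)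
    exact measurable_RR.comp ((measurable_fst.comp measurable_fst).prodMk measurable_snd)
  exact (h.integral_prod_right (ν := π)).measurable

theorem bet_nonneg (Γ : ι → ℝ) (y : ℝ) : 0 ≤ bet π Γ y :=
  integral_nonneg fun _ => hh_nonneg _

theorem bet_le_one (Γ : ι → ℝ) (y : ℝ) : bet π Γ y ≤ 1 := by
  unfold bet
  calc ∫ X, hh (|y| * RR Γ X) ∂π ≤ ∫ _X, (1 : ℝ) ∂π :=
        integral_mono (integrable_hh π Γ y) (integrable_const _) fun X => hh_le_one _
    _ = 1 := by simp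

theorem AA_eq (Γ : ι → ℝ) (hΓ : ∀ i, Γ i < 0) (y : ℝ) : AA π Γ y = 1 - bet π Γ y := by
  have h1 : AA π Γ y + (rho π).real {p | ∀ i, |p.2| * Γ i ≤ |y| * p.1 i}ᶜ = 1 := by
    unfold AA
    rw [measureReal_add_measureReal_compl (measurableSet_AA Γ y)]
    simp
  have h2 : {p : (ι → ℝ) × ℝ | ∀ i, |p.2| * Γ i ≤ |y| * p.1 i}ᶜ =
      {p | |p.2| < |y| * RR Γ p.1} := by
    ext p
    rw [Set.mem_compl_iff, Set.mem_ofPred_eq, Set.mem_ofPred_eq]
    push Not
    have hy := abs_nonneg y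
    constructor
    · rintro ⟨i, hi⟩
      have h3 : |p.2| < |y| * (p.1 i / Γ i) := by
        rw [← mul_div_assoc, lt_div_iff_of_neg (hΓ i)]
        exact hi
      exact lt_of_lt_of_le h3 (mul_le_mul_of_nonneg_left (le_RR Γ p.1 i) hy)
    · intro h
      obtain ⟨i, _, hi⟩ := Finset.exists_mem_eq_sup' (Finset.univ_nonempty (α := ι))
        (fun i => p.1 i / Γ i)
      refine ⟨i, ?_⟩
      unfold RR at h
      rw [hi, ← mul_div_assoc, lt_div_iff_of_neg (hΓ i)] at h
      exact h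
  have h3 : (rho π).real {p | |p.2| < |y| * RR Γ p.1} = bet π Γ y := by
    unfold rho bet
    have hm : MeasurableSet {p : (ι → ℝ) × ℝ | |p.2| < |y| * RR Γ p.1} := by
      apply measurableSet_lt (by fun_prop)
      exact ((measurable_RR_right Γ).comp measurable_fst).const_mul _
    rw [Measure.real, Measure.prod_apply hm, ← integral_toReal]
    · rfl
    · exact (measurable_measure_prodMk_left hm).aemeasurable
    · exact ae_of_all _ fun X => measure_lt_top _ _
  rw [h2, h3] at h1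
  linarith

theorem AA_le_half (hmarg : ∀ i, π.map (fun X => X i) = gaussianReal 0 1) (Γ : ι → ℝ)
    (i : ι) (hi : 0 ≤ Γ i) (y : ℝ) (hy : y ≠ 0) : AA π Γ y ≤ 1 / 2 := by
  unfold AA
  have h1 : (rho π).real {p | ∀ i, |p.2| * Γ i ≤ |y| * p.1 i} ≤
      (rho π).real (({X : ι → ℝ | 0 ≤ X i}) ×ˢ (Set.univ : Set ℝ)) := by
    apply measureReal_mono _ (measure_ne_top _ _)
    intro p hp
    refine ⟨?_, Set.mem_univ _⟩
    have h2 := hp i
    have h3 : 0 ≤ |y| * p.1 i := le_trans (by positivity) h2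
    exact nonneg_of_mul_nonneg_right h3 (abs_pos.mpr hy)
  refine h1.trans ?_
  unfold rho
  rw [measureReal_prod_prod]
  have h4 : π.real {X : ι → ℝ | 0 ≤ X i} = (gaussianReal 0 1).real (Ici 0) := by
    rw [← hmarg i, Measure.real, Measure.real, Measure.map_apply (by fun_prop) measurableSet_Ici]
    rfl
  rw [h4]
  have := gaussian_Ici_zero
  simp only [probReal_univ, mul_one]
  exact this

/-- the constant `κ` -/
noncomputable def kap : ℝ := p1 * c1

theorem kap_pos : 0 < kap := mul_pos p1_pos c1_pos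

theorem bet_ge (hmarg : ∀ i, π.map (fun X => X i) = gaussianReal 0 1) (Γ : ι → ℝ) (i : ι)
    (hΓ : Γ i < 0) (y : ℝ) : kap * min (|y| / |Γ i|) 1 ≤ bet π Γ y := by
  have hy := abs_nonneg y
  have hpos : 0 < |Γ i| := abs_pos.mpr hΓ.ne
  unfold bet
  have hS : MeasurableSet {X : ι → ℝ | X i ≤ -1} := measurableSet_le (by fun_prop) (by fun_prop)
  calc kap * min (|y| / |Γ i|) 1 = p1 * (c1 * min (|y| / |Γ i|) 1) := by unfold kap; ring
    _ ≤ p1 * hh (|y| / |Γ i|) :=
        mul_le_mul_of_nonneg_left (c1_min_le _ (by positivity)) p1_pos.le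
    _ = ∫ X in {X : ι → ℝ | X i ≤ -1}, hh (|y| / |Γ i|) ∂π := by
        rw [setIntegral_const, smul_eq_mul]
        congr 1
        unfold p1
        rw [← hmarg i, Measure.real, Measure.real, Measure.map_apply (by fun_prop) measurableSet_Iic]
        rfl
    _ ≤ ∫ X in {X : ι → ℝ | X i ≤ -1}, hh (|y| * RR Γ X) ∂π := by
        apply setIntegral_mono_on (integrableOn_const (measure_ne_top _ _))
          (integrable_hh π Γ y).integrableOn hS
        intro X hX
        apply hh_mono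
        rw [div_eq_mul_inv]
        apply mul_le_mul_of_nonneg_left _ hy
        refine le_trans ?_ (le_RR Γ X i)
        have h1 : |Γ i| = -Γ i := abs_of_neg hΓ
        rw [h1, ← one_div, div_le_iff₀ (by linarith), mul_comm, ← mul_div_assoc, le_div_iff_of_neg hΓ]
        have hX' : X i ≤ -1 := hX
        nlinarith
    _ ≤ ∫ X, hh (|y| * RR Γ X) ∂π :=
        setIntegral_le_integral (integrable_hh π Γ y) (ae_of_all _ fun X => hh_nonneg _)

theorem AA_pow_le (hmarg : ∀ i, π.map (fun X => X i) = gaussianReal 0 1) (Γ : ι → ℝ) (i : ι)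
    (hΓ : ∀ i, Γ i < 0) (y : ℝ) (d : ℕ) :
    AA π Γ y ^ d ≤ Real.exp (-(d * (kap * min (|y| / |Γ i|) 1))) := by
  rw [AA_eq π Γ hΓ]
  have h1 := bet_ge π hmarg Γ i (hΓ i) y
  have h2 : 1 - bet π Γ y ≤ Real.exp (-(kap * min (|y| / |Γ i|) 1)) := by
    have := Real.one_sub_le_exp_neg (bet π Γ y)
    refine this.trans (Real.exp_le_exp.mpr (by linarith))
  calc (1 - bet π Γ y) ^ d ≤ (Real.exp (-(kap * min (|y| / |Γ i|) 1))) ^ d :=
        pow_le_pow_left₀ (by linarith [bet_le_one π Γ y]) h2 d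
    _ = _ := by rw [← Real.exp_nat_mul]; congr 1; ring

end Pool.Agent.Lib.MP_da621d_pr
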