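import Mathlib
import Pool.Agent.Lib.MP_da621d_pr.Core

namespace Pool.Agent.Lib.MP_da621d_pr

open MeasureTheory ProbabilityTheory Set Filter
open scoped ENNReal NNReal Topology

set_option linter.unusedSectionVars false

theorem lintegral_scale (f : ℝ → ℝ≥0∞) (hf : Measurable f) (a : ℝ) (ha : 0 < a) :
    ∫⁻ t, f (a⁻¹ * t) = ENNReal.ofReal a * ∫⁻ y, f y := by
  have h := Real.map_volume_mul_left (a := a⁻¹) (inv_ne_zero ha.ne')
  rw [inv_inv, abs_of_pos ha] at h
  have hm : Measurable (fun t : ℝ => a⁻¹ * t) := by fun_prop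
  rw [← lintegral_map (f := f) hf hm, h, lintegral_smul_measure, smul_eq_mul]

/-- `K₁ = ∫ c₀ e^{-|t|} dt`. -/
noncomputable def K1 : ℝ≥0∞ := ∫⁻ t : ℝ, ENNReal.ofReal (c0 * Real.exp (-|t|))

theorem K1_lt_top : K1 < ⊤ := by
  unfold K1
  have h1 : ∀ t : ℝ, ENNReal.ofReal (c0 * Real.exp (-|t|)) ≤
      ENNReal.ofReal (c0 * 2 * (1 + t ^ 2)⁻¹) := by
    intro t
    apply ENNReal.ofReal_le_ofReal
    have h2 := Real.quadratic_le_exp_of_nonneg (abs_nonneg t)
    have h3 : 1 + t ^ 2 ≤ 2 * Real.exp |t| := by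
      have := abs_nonneg t
      rw [sq_abs] at h2
      linarith
    rw [Real.exp_neg, mul_assoc]
    apply mul_le_mul_of_nonneg_left _ c0_pos.le
    rw [inv_eq_one_div, inv_eq_one_div, mul_one_div, div_le_div_iff₀ (Real.exp_pos _) (by positivity)]
    linarith
  refine lt_of_le_of_lt (lintegral_mono h1) ?_
  have h2 : Integrable (fun t : ℝ => c0 * 2 * (1 + t ^ 2)⁻¹) :=
    integrable_inv_one_add_sq.const_mul _
  have h3 := h2.lintegral_lt_top
  exact h3

theorem lintegral_exp_scale (a : ℝ) (ha : 0 < a) :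
    ∫⁻ t : ℝ, ENNReal.ofReal (c0 * Real.exp (-(kap * (|t| / a)))) =
      ENNReal.ofReal (a / kap) * K1 := by
  have hk := kap_pos
  have h := lintegral_scale (fun t => ENNReal.ofReal (c0 * Real.exp (-|t|))) (by fun_prop)
    (a / kap) (by positivity)
  unfold K1
  rw [← h]
  apply lintegral_congr
  intro t
  have h2 : |(a / kap)⁻¹ * t| = kap * (|t| / a) := by
    rw [abs_mul, abs_of_pos (show 0 < (a / kap)⁻¹ by positivity)]
    field_simp
  rw [h2]

variable {ι : Type*} [Fintype ι] [Nonempty ι]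
variable (π : Measure (ι → ℝ)) [IsProbabilityMeasure π]

/-- all coordinates negative -/
def Neg (ι : Type*) : Set (ι → ℝ) := {Γ | ∀ i, Γ i < 0}

theorem measurableSet_Neg : MeasurableSet (Neg ι) := by
  have : Neg ι = ⋂ i, {Γ : ι → ℝ | Γ i < 0} := by ext; simp [Neg]
  rw [this]
  exact MeasurableSet.iInter fun i => measurableSet_lt (by fun_prop) (by fun_prop)

/-- `Q_d = d E[(2α)^d]`. -/
noncomputable def Q (d : ℕ) : ℝ≥0∞ :=
  d * ∫⁻ q, ENNReal.ofReal (AA π q.1 q.2 ^ d) ∂(rho π)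

/-- the rescaled integrand -/
noncomputable def GG (d : ℕ) (q : (ι → ℝ) × ℝ) : ℝ≥0∞ :=
  ENNReal.ofReal (gaussianPDFReal 0 1 (q.2 / d) * AA π q.1 (q.2 / d) ^ d)

theorem measurable_GG (d : ℕ) : Measurable (GG π d) := by
  unfold GG
  apply Measurable.ennreal_ofReal
  apply Measurable.mul
  · exact (measurable_gaussianPDFReal 0 1).comp (by fun_prop)
  · apply Measurable.pow_const
    have h : Measurable (fun q : (ι → ℝ) × ℝ => (q.1, q.2 / (d : ℝ))) := by fun_prop
    exact (measurable_AA π).comp h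

theorem rho_eq : rho π = (π.prod volume).withDensity
    (fun q => ENNReal.ofReal (gaussianPDFReal 0 1 q.2)) := by
  unfold rho
  have h1 : gaussianReal 0 1 = (volume : Measure ℝ).withDensity
      (fun x => ENNReal.ofReal (gaussianPDFReal 0 1 x)) := by
    rw [gaussianReal_of_var_ne_zero _ one_ne_zero]
    rfl
  rw [h1, prod_withDensity_right (measurable_gaussianPDFReal 0 1).ennreal_ofReal]

theorem part_eq (d : ℕ) (hd : 0 < d) :
    d * ∫⁻ q in Neg ι ×ˢ (univ : Set ℝ), ENNReal.ofReal (AA π q.1 q.2 ^ d) ∂(rho π) =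
      ∫⁻ q in Neg ι ×ˢ (univ : Set ℝ), GG π d q ∂(π.prod volume) := by
  have hd' : (0 : ℝ) < d := by exact_mod_cast hd
  have hm : MeasurableSet (Neg ι ×ˢ (univ : Set ℝ)) := measurableSet_Neg.prod MeasurableSet.univ
  have hA : Measurable (fun q : (ι → ℝ) × ℝ => ENNReal.ofReal (AA π q.1 q.2 ^ d)) :=
    ((measurable_AA π).pow_const d).ennreal_ofReal
  have hp : Measurable (fun q : (ι → ℝ) × ℝ => ENNReal.ofReal (gaussianPDFReal 0 1 q.2)) :=
    ((measurable_gaussianPDFReal 0 1).comp measurable_snd).ennreal_ofReal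
  rw [rho_eq, restrict_withDensity hm, lintegral_withDensity_eq_lintegral_mul _ hp hA,
    ← Measure.prod_restrict, Measure.restrict_univ, lintegral_prod _ (hp.mul hA).aemeasurable,
    lintegral_prod _ (measurable_GG π d).aemeasurable, ← lintegral_const_mul' _ _ (by simp)]
  apply lintegral_congr
  intro Γ
  have h := lintegral_scale (fun y => ENNReal.ofReal (gaussianPDFReal 0 1 y) *
    ENNReal.ofReal (AA π Γ y ^ d)) (by
      have := (hp.mul hA).comp (measurable_const.prodMk measurable_id : Measurable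
        (fun y : ℝ => ((Γ, y) : (ι → ℝ) × ℝ)))
      exact this) d hd'
  rw [ENNReal.ofReal_natCast] at h
  refine Eq.trans ?_ (h.symm.trans ?_)
  · rfl
  · apply lintegral_congr
    intro t
    unfold GG
    rw [ENNReal.ofReal_mul (gaussianPDFReal_nonneg _ _ _), div_eq_inv_mul]

theorem Q_le_split (hmarg : ∀ i, π.map (fun X => X i) = gaussianReal 0 1)
    (d : ℕ) (hd : 0 < d) :
    Q π d ≤ d * ENNReal.ofReal ((1 / 2) ^ d) +
      ∫⁻ q in Neg ι ×ˢ (univ : Set ℝ), GG π d q ∂(π.prod volume) := by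
  have hm : MeasurableSet (Neg ι ×ˢ (univ : Set ℝ)) := measurableSet_Neg.prod MeasurableSet.univ
  unfold Q
  rw [← lintegral_add_compl _ hm, mul_add, part_eq π d hd, add_comm]
  gcongr
  calc ∫⁻ q in (Neg ι ×ˢ (univ : Set ℝ))ᶜ, ENNReal.ofReal (AA π q.1 q.2 ^ d) ∂(rho π)
      ≤ ∫⁻ q in (Neg ι ×ˢ (univ : Set ℝ))ᶜ, ENNReal.ofReal ((1 / 2) ^ d) ∂(rho π) := by
        apply lintegral_mono_ae
        have hne : ∀ᵐ q ∂(rho π), q.2 ≠ 0 := by
          unfold rho
          have h1 : (π.prod (gaussianReal 0 1)) ((univ : Set (ι → ℝ)) ×ˢ ({0} : Set ℝ)) = 0 := by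
            rw [Measure.prod_prod]
            have : NullSingletonClass (gaussianReal 0 1) :=
              nullSingletonClass_gaussianReal one_ne_zero
            rw [measure_singleton, mul_zero]
          rw [ae_iff]
          refine measure_mono_null ?_ h1
          intro q hq
          simp only [ne_eq, not_not, Set.mem_ofPred_eq] at hq
          exact ⟨Set.mem_univ _, hq⟩
        filter_upwards [ae_restrict_mem hm.compl, ae_restrict_of_ae hne] with q hq hq2
        have h2 : q.1 ∉ Neg ι := by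
          intro h
          exact hq ⟨h, Set.mem_univ _⟩
        unfold Neg at h2
        rw [Set.mem_ofPred_eq] at h2
        push Not at h2
        obtain ⟨i, hi⟩ := h2
        apply ENNReal.ofReal_le_ofReal
        exact pow_le_pow_left₀ (AA_nonneg π _ _) (AA_le_half π hmarg q.1 i hi q.2 hq2) d
    _ ≤ ∫⁻ _q, ENNReal.ofReal ((1 / 2) ^ d) ∂(rho π) := lintegral_mono' Measure.restrict_le_self le_rfl
    _ = ENNReal.ofReal ((1 / 2) ^ d) := by simp

theorem le_Q (d : ℕ) (hd : 0 < d) :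
    ∫⁻ q in Neg ι ×ˢ (univ : Set ℝ), GG π d q ∂(π.prod volume) ≤ Q π d := by
  rw [← part_eq π d hd]
  unfold Q
  exact mul_le_mul' le_rfl (lintegral_mono' Measure.restrict_le_self le_rfl)

/-- The near part of the integrand. -/
noncomputable def G1 (i0 : ι) (d : ℕ) (q : (ι → ℝ) × ℝ) : ℝ≥0∞ :=
  {q : (ι → ℝ) × ℝ | |q.2| ≤ d * |q.1 i0|}.indicator (GG π d) q

theorem measurableSet_near (i0 : ι) (d : ℕ) :
    MeasurableSet {q : (ι → ℝ) × ℝ | |q.2| ≤ d * |q.1 i0|} :=
  measurableSet_le (by fun_prop) (by fun_prop)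

theorem measurable_G1 (i0 : ι) (d : ℕ) : Measurable (G1 π i0 d) :=
  (measurable_GG π d).indicator (measurableSet_near i0 d)

/-- The dominating function. -/
noncomputable def Gst (i0 : ι) (q : (ι → ℝ) × ℝ) : ℝ≥0∞ :=
  ENNReal.ofReal (c0 * Real.exp (-(kap * (|q.2| / |q.1 i0|))))

theorem measurable_Gst (i0 : ι) : Measurable (Gst (ι := ι) i0) := by
  unfold Gst; fun_prop

theorem G1_le (hmarg : ∀ i, π.map (fun X => X i) = gaussianReal 0 1) (i0 : ι) (d : ℕ)
    (hd : 0 < d) (q : (ι → ℝ) × ℝ) (hq : q.1 ∈ Neg ι) : G1 π i0 d q ≤ Gst i0 q := by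
  unfold G1 Gst
  have hd' : (0 : ℝ) < d := by exact_mod_cast hd
  have hpos : 0 < |q.1 i0| := abs_pos.mpr (hq i0).ne
  by_cases h : q ∈ {q : (ι → ℝ) × ℝ | |q.2| ≤ d * |q.1 i0|}
  · rw [Set.indicator_of_mem h]
    unfold GG
    apply ENNReal.ofReal_le_ofReal
    have h' : |q.2| ≤ d * |q.1 i0| := h
    have h1 := AA_pow_le π hmarg q.1 i0 hq (q.2 / d) d
    have h2 : |q.2 / d| / |q.1 i0| ≤ 1 := by
      rw [abs_div, abs_of_pos hd', div_div, div_le_one (by positivity)]
      exact h'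
    rw [min_eq_left h2] at h1
    have h3 : (d : ℝ) * (kap * (|q.2 / d| / |q.1 i0|)) = kap * (|q.2| / |q.1 i0|) := by
      rw [abs_div, abs_of_pos hd']
      field_simp
    rw [h3] at h1
    exact mul_le_mul (pdf_le _) h1 (pow_nonneg (AA_nonneg π _ _) _) c0_pos.le
  · rw [Set.indicator_of_notMem h]
    exact zero_le

theorem lintegral_Gst (hmarg : ∀ i, π.map (fun X => X i) = gaussianReal 0 1) (i0 : ι) :
    ∫⁻ q in Neg ι ×ˢ (univ : Set ℝ), Gst i0 q ∂(π.prod volume) ≤
      K1 * ∫⁻ x, ENNReal.ofReal (|x| / kap) ∂(gaussianReal 0 1) := by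
  rw [← Measure.prod_restrict, Measure.restrict_univ,
    lintegral_prod _ (measurable_Gst i0).aemeasurable]
  calc ∫⁻ Γ in Neg ι, (∫⁻ t : ℝ, Gst i0 (Γ, t)) ∂π
      = ∫⁻ Γ in Neg ι, ENNReal.ofReal (|Γ i0| / kap) * K1 ∂π := by
        apply setLIntegral_congr_fun measurableSet_Neg
        intro Γ hΓ
        have hpos : 0 < |Γ i0| := abs_pos.mpr (hΓ i0).ne
        exact lintegral_exp_scale _ hpos
    _ ≤ ∫⁻ Γ, ENNReal.ofReal (|Γ i0| / kap) * K1 ∂π :=
        lintegral_mono' Measure.restrict_le_self le_rfl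
    _ = K1 * ∫⁻ Γ, ENNReal.ofReal (|Γ i0| / kap) ∂π := by
        rw [lintegral_mul_const _ (by fun_prop), mul_comm]
    _ = K1 * ∫⁻ x, ENNReal.ofReal (|x| / kap) ∂(gaussianReal 0 1) := by
        rw [← hmarg i0, lintegral_map (by fun_prop) (by fun_prop)]

theorem far_le (hmarg : ∀ i, π.map (fun X => X i) = gaussianReal 0 1) (i0 : ι) (d : ℕ)
    (hd : 0 < d) :
    ∫⁻ q in Neg ι ×ˢ (univ : Set ℝ), GG π d q ∂(π.prod volume) ≤
      ∫⁻ q in Neg ι ×ˢ (univ : Set ℝ), G1 π i0 d q ∂(π.prod volume) +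
        d * ENNReal.ofReal (Real.exp (-(kap * d))) := by
  have hd' : (0 : ℝ) < d := by exact_mod_cast hd
  have hm : MeasurableSet (Neg ι ×ˢ (univ : Set ℝ)) := measurableSet_Neg.prod MeasurableSet.univ
  have h1 : ∀ q ∈ Neg ι ×ˢ (univ : Set ℝ), GG π d q ≤ G1 π i0 d q +
      ENNReal.ofReal (gaussianPDFReal 0 1 ((d : ℝ)⁻¹ * q.2)) *
        ENNReal.ofReal (Real.exp (-(kap * d))) := by
    intro q hq
    by_cases h : q ∈ {q : (ι → ℝ) × ℝ | |q.2| ≤ d * |q.1 i0|}
    · unfold G1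
      rw [Set.indicator_of_mem h]
      exact le_self_add
    · unfold G1
      rw [Set.indicator_of_notMem h, zero_add, ← ENNReal.ofReal_mul (gaussianPDFReal_nonneg _ _ _)]
      unfold GG
      apply ENNReal.ofReal_le_ofReal
      rw [div_eq_inv_mul]
      apply mul_le_mul_of_nonneg_left _ (gaussianPDFReal_nonneg _ _ _)
      have h' : d * |q.1 i0| < |q.2| := by
        rw [Set.mem_ofPred_eq, not_le] at h
        exact h
      have hpos : 0 < |q.1 i0| := abs_pos.mpr (hq.1 i0).ne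
      have h2 := AA_pow_le π hmarg q.1 i0 hq.1 ((d : ℝ)⁻¹ * q.2) d
      have h3 : 1 ≤ |(d : ℝ)⁻¹ * q.2| / |q.1 i0| := by
        rw [abs_mul, abs_of_pos (inv_pos.mpr hd'), one_le_div hpos, inv_mul_eq_div,
          le_div_iff₀ hd']
        linarith
      rw [min_eq_right h3] at h2
      have h4 : (d : ℝ) * (kap * 1) = kap * d := by ring
      rw [h4] at h2
      exact h2
  have hmeas : Measurable (fun q : (ι → ℝ) × ℝ =>
      ENNReal.ofReal (gaussianPDFReal 0 1 ((d : ℝ)⁻¹ * q.2))) :=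
    ((measurable_gaussianPDFReal 0 1).comp (by fun_prop)).ennreal_ofReal
  calc _ ≤ ∫⁻ q in Neg ι ×ˢ (univ : Set ℝ), (G1 π i0 d q +
      ENNReal.ofReal (gaussianPDFReal 0 1 ((d : ℝ)⁻¹ * q.2)) *
        ENNReal.ofReal (Real.exp (-(kap * d)))) ∂(π.prod volume) := setLIntegral_mono' hm h1
    _ = ∫⁻ q in Neg ι ×ˢ (univ : Set ℝ), G1 π i0 d q ∂(π.prod volume) +
        (∫⁻ q in Neg ι ×ˢ (univ : Set ℝ),
          ENNReal.ofReal (gaussianPDFReal 0 1 ((d : ℝ)⁻¹ * q.2)) ∂(π.prod volume)) *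
          ENNReal.ofReal (Real.exp (-(kap * d))) := by
        rw [lintegral_add_left (measurable_G1 π i0 d), lintegral_mul_const _ hmeas]
    _ ≤ _ := by
        gcongr
        calc ∫⁻ q in Neg ι ×ˢ (univ : Set ℝ),
              ENNReal.ofReal (gaussianPDFReal 0 1 ((d : ℝ)⁻¹ * q.2)) ∂(π.prod volume)
            ≤ ∫⁻ q, ENNReal.ofReal (gaussianPDFReal 0 1 ((d : ℝ)⁻¹ * q.2)) ∂(π.prod volume) :=
              lintegral_mono' Measure.restrict_le_self le_rfl
          _ = d := by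
              rw [lintegral_prod _ hmeas.aemeasurable]
              have h5 := lintegral_scale (fun y => ENNReal.ofReal (gaussianPDFReal 0 1 y))
                (measurable_gaussianPDFReal 0 1).ennreal_ofReal d hd'
              have h6 : ∫⁻ x, ENNReal.ofReal (gaussianPDFReal 0 1 x) = 1 :=
                lintegral_gaussianPDFReal_eq_one 0 one_ne_zero
              rw [h6, mul_one, ENNReal.ofReal_natCast] at h5
              simp only [h5]
              simp

end Pool.Agent.Lib.MP_da621d_pr
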