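import Mathlib
import Pool.Agent.Lib.MP_da621d_pr.Limit

namespace Pool.Agent.Lib.MP_da621d_pr

open MeasureTheory ProbabilityTheory Set Filter
open scoped ENNReal NNReal Topology

set_option linter.unusedSectionVars false

variable {ι : Type*} [Fintype ι] [Nonempty ι]
variable (π : Measure (ι → ℝ)) [IsProbabilityMeasure π]

/-- exponential rate -/
noncomputable def gg (Γ : ι → ℝ) : ℝ := 2 * c0 * ∫ X, max (RR Γ X) 0 ∂π

theorem max_RR_le (Γ X : ι → ℝ) : max (RR Γ X) 0 ≤ ∑ i, |X i / Γ i| := by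
  apply max_le
  · obtain ⟨i, _, hi⟩ := Finset.exists_mem_eq_sup' (Finset.univ_nonempty (α := ι))
      (fun i => X i / Γ i)
    unfold RR
    rw [hi]
    exact (le_abs_self _).trans (Finset.single_le_sum (f := fun i => |X i / Γ i|)
      (fun i _ => abs_nonneg _) (Finset.mem_univ i))
  · exact Finset.sum_nonneg fun i _ => abs_nonneg _

theorem integrable_coord (hmarg : ∀ i, π.map (fun X => X i) = gaussianReal 0 1) (i : ι) :
    Integrable (fun X : ι → ℝ => X i) π := by
  have h1 : Integrable (fun x : ℝ => x) (π.map (fun X => X i)) := by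
    rw [hmarg i]
    exact IsGaussian.integrable_id
  exact (integrable_map_measure (g := fun x : ℝ => x) measurable_id.aestronglyMeasurable
    (measurable_pi_apply i).aemeasurable).mp h1

theorem integrable_sum_abs (hmarg : ∀ i, π.map (fun X => X i) = gaussianReal 0 1)
    (Γ : ι → ℝ) : Integrable (fun X : ι → ℝ => ∑ i, |X i / Γ i|) π :=
  integrable_finsetSum _ fun i _ => ((integrable_coord π hmarg i).div_const _).abs

theorem tendsto_d_bet (hmarg : ∀ i, π.map (fun X => X i) = gaussianReal 0 1)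
    (Γ : ι → ℝ) (t : ℝ) :
    Tendsto (fun d : ℕ => (d : ℝ) * bet π Γ (t / d)) atTop (𝓝 (|t| * gg π Γ)) := by
  have h1 : |t| * gg π Γ = ∫ X, 2 * c0 * max (|t| * RR Γ X) 0 ∂π := by
    unfold gg
    rw [← integral_const_mul, ← integral_const_mul]
    congr 1
    ext X
    rw [← mul_zero |t|, ← mul_max_of_nonneg _ _ (abs_nonneg t)]
    simp only [mul_zero]
    ring
  rw [h1]
  have h2 : ∀ d : ℕ, (d : ℝ) * bet π Γ (t / d) = ∫ X, (d : ℝ) * hh ((|t| * RR Γ X) / d) ∂π := by
    intro d
    unfold bet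
    rw [← integral_const_mul]
    congr 1
    ext X
    congr 2
    rw [abs_div, Nat.abs_cast]
    ring
  simp_rw [h2]
  apply tendsto_integral_of_dominated_convergence
    (fun X => 2 * c0 * (|t| * ∑ i, |X i / Γ i|))
  · intro d
    apply Measurable.aestronglyMeasurable
    apply Measurable.const_mul
    apply measurable_hh.comp
    exact ((measurable_RR_right Γ).const_mul _).div_const _
  · exact ((integrable_sum_abs π hmarg Γ).const_mul _).const_mul _
  · intro d
    refine ae_of_all _ fun X => ?_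
    rw [Real.norm_of_nonneg (mul_nonneg (Nat.cast_nonneg d) (hh_nonneg _))]
    have hc := c0_pos
    rcases Nat.eq_zero_or_pos d with hd | hd
    · subst hd
      simp only [Nat.cast_zero, zero_mul]
      exact mul_nonneg (by positivity) (mul_nonneg (abs_nonneg _)
        (Finset.sum_nonneg fun i _ => abs_nonneg _))
    · have hd' : (0 : ℝ) < d := by exact_mod_cast hd
      calc (d : ℝ) * hh ((|t| * RR Γ X) / d) ≤ d * (2 * c0 * max ((|t| * RR Γ X) / d) 0) :=
            mul_le_mul_of_nonneg_left (hh_le_max _) hd'.le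
        _ = 2 * c0 * max (|t| * RR Γ X) 0 := by
            have : max ((|t| * RR Γ X) / d) 0 = max (|t| * RR Γ X) 0 / d := by
              rw [← max_div_div_right hd'.le, zero_div]
            rw [this]
            field_simp
        _ = 2 * c0 * (|t| * max (RR Γ X) 0) := by
            rw [mul_max_of_nonneg _ _ (abs_nonneg t), mul_zero]
        _ ≤ 2 * c0 * (|t| * ∑ i, |X i / Γ i|) := by
            apply mul_le_mul_of_nonneg_left _ (by positivity)
            exact mul_le_mul_of_nonneg_left (max_RR_le Γ X) (abs_nonneg t)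
  · exact ae_of_all _ fun X => tendsto_hh _

/-- limiting integrand -/
noncomputable def Ginf (q : (ι → ℝ) × ℝ) : ℝ≥0∞ :=
  ENNReal.ofReal (c0 * Real.exp (-(|q.2| * gg π q.1)))

theorem tendsto_G1 (hmarg : ∀ i, π.map (fun X => X i) = gaussianReal 0 1) (i0 : ι)
    (q : (ι → ℝ) × ℝ) (hq : q.1 ∈ Neg ι) :
    Tendsto (fun d : ℕ => G1 π i0 d q) atTop (𝓝 (Ginf π q)) := by
  have hpos : 0 < |q.1 i0| := abs_pos.mpr (hq i0).ne
  have h1 : Tendsto (fun d : ℕ => (d : ℝ) * (-bet π q.1 (q.2 / d))) atTop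
      (𝓝 (-(|q.2| * gg π q.1))) := by
    have := (tendsto_d_bet π hmarg q.1 q.2).neg
    refine this.congr fun d => ?_
    ring
  have h2 := Real.tendsto_one_add_pow_exp_of_tendsto h1
  have h3 : Tendsto (fun d : ℕ => gaussianPDFReal 0 1 (q.2 / d)) atTop (𝓝 c0) := by
    have h4 : Tendsto (fun d : ℕ => q.2 / (d : ℝ)) atTop (𝓝 0) :=
      tendsto_const_div_atTop_nhds_zero_nat q.2
    have h5 : Continuous (fun x : ℝ => c0 * Real.exp (-(x ^ 2) / 2)) := by fun_prop
    have h6 := (h5.tendsto 0).comp h4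
    simp only [ne_eq, OfNat.ofNat_ne_zero, not_false_eq_true, zero_pow, neg_zero, zero_div,
        Real.exp_zero, mul_one] at h6
    refine h6.congr fun d => ?_
    rw [pdf_eq]
    rfl
  have h7 := (ENNReal.continuous_ofReal.tendsto _).comp (h3.mul h2)
  have h8 : ∀ᶠ d : ℕ in atTop, G1 π i0 d q =
      (ENNReal.ofReal ∘ fun d : ℕ => gaussianPDFReal 0 1 (q.2 / d) *
        (1 + -bet π q.1 (q.2 / d)) ^ d) d := by
    have h9 : Tendsto (fun d : ℕ => (d : ℝ) * |q.1 i0|) atTop atTop :=
      tendsto_natCast_atTop_atTop.atTop_mul_const hpos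
    filter_upwards [h9.eventually_ge_atTop |q.2|] with d hd
    unfold G1
    rw [Set.indicator_of_mem (show q ∈ {q : (ι → ℝ) × ℝ | |q.2| ≤ d * |q.1 i0|} from hd)]
    unfold GG
    rw [AA_eq π q.1 hq]
    rfl
  exact h7.congr' (h8.mono fun d hd => hd.symm)

/-- the limit of `Q`. -/
noncomputable def Qinf : ℝ≥0∞ :=
  ∫⁻ q in Neg ι ×ˢ (univ : Set ℝ), Ginf π q ∂(π.prod volume)

/-- universal bound for the dominating integral -/
noncomputable def K2 : ℝ≥0∞ := K1 * ∫⁻ x, ENNReal.ofReal (|x| / kap) ∂(gaussianReal 0 1)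

theorem K2_lt_top : K2 < ⊤ := by
  unfold K2
  apply ENNReal.mul_lt_top K1_lt_top
  have h1 : Integrable (fun x : ℝ => |x| / kap) (gaussianReal 0 1) := by
    have h2 : Integrable (fun x : ℝ => x) (gaussianReal 0 1) := IsGaussian.integrable_id
    exact h2.abs.div_const _
  exact h1.lintegral_lt_top

theorem tendsto_lintegral_G1 (hmarg : ∀ i, π.map (fun X => X i) = gaussianReal 0 1) (i0 : ι) :
    Tendsto (fun d : ℕ => ∫⁻ q in Neg ι ×ˢ (univ : Set ℝ), G1 π i0 d q ∂(π.prod volume))
      atTop (𝓝 (Qinf π)) := by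
  have hm : MeasurableSet (Neg ι ×ˢ (univ : Set ℝ)) := measurableSet_Neg.prod MeasurableSet.univ
  apply tendsto_lintegral_filter_of_dominated_convergence (Gst i0)
  · exact Eventually.of_forall fun d => measurable_G1 π i0 d
  · filter_upwards [eventually_gt_atTop 0] with d hd
    filter_upwards [ae_restrict_mem hm] with q hq
    exact G1_le π hmarg i0 d hd q hq.1
  · exact ((lintegral_Gst π hmarg i0).trans_lt K2_lt_top).ne
  · filter_upwards [ae_restrict_mem hm] with q hq
    exact tendsto_G1 π hmarg i0 q hq.1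

theorem tendsto_e1 : Tendsto (fun d : ℕ => (d : ℝ≥0∞) * ENNReal.ofReal ((1 / 2) ^ d))
    atTop (𝓝 0) := by
  have h1 : Tendsto (fun d : ℕ => (d : ℝ) * (1 / 2) ^ d) atTop (𝓝 0) :=
    tendsto_self_mul_const_pow_of_lt_one (by norm_num) (by norm_num)
  have h2 := (ENNReal.continuous_ofReal.tendsto _).comp h1
  rw [ENNReal.ofReal_zero] at h2
  refine h2.congr fun d => ?_
  rw [Function.comp_apply, ENNReal.ofReal_mul (Nat.cast_nonneg d), ENNReal.ofReal_natCast]

theorem tendsto_e2 : Tendsto (fun d : ℕ => (d : ℝ≥0∞) * ENNReal.ofReal (Real.exp (-(kap * d))))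
    atTop (𝓝 0) := by
  have h1 : Tendsto (fun d : ℕ => (d : ℝ) * (Real.exp (-kap)) ^ d) atTop (𝓝 0) :=
    tendsto_self_mul_const_pow_of_lt_one (Real.exp_pos _).le
      (by rw [Real.exp_lt_one_iff]; linarith [kap_pos])
  have h2 := (ENNReal.continuous_ofReal.tendsto _).comp h1
  rw [ENNReal.ofReal_zero] at h2
  refine h2.congr fun d => ?_
  rw [Function.comp_apply, ENNReal.ofReal_mul (Nat.cast_nonneg d), ENNReal.ofReal_natCast,
    ← Real.exp_nat_mul]
  congr 3
  ring

theorem tendsto_Q (hmarg : ∀ i, π.map (fun X => X i) = gaussianReal 0 1) :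
    Tendsto (Q π) atTop (𝓝 (Qinf π)) := by
  obtain ⟨i0⟩ := (inferInstance : Nonempty ι)
  have hm : MeasurableSet (Neg ι ×ˢ (univ : Set ℝ)) := measurableSet_Neg.prod MeasurableSet.univ
  have hlow := tendsto_lintegral_G1 π hmarg i0
  have hup : Tendsto (fun d : ℕ => (d : ℝ≥0∞) * ENNReal.ofReal ((1 / 2) ^ d) +
      (∫⁻ q in Neg ι ×ˢ (univ : Set ℝ), G1 π i0 d q ∂(π.prod volume) +
        d * ENNReal.ofReal (Real.exp (-(kap * d))))) atTop (𝓝 (Qinf π)) := by
    have := tendsto_e1.add (hlow.add tendsto_e2)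
    rw [zero_add, add_zero] at this
    exact this
  apply tendsto_of_tendsto_of_tendsto_of_le_of_le' hlow hup
  · filter_upwards [eventually_gt_atTop 0] with d hd
    refine le_trans ?_ (le_Q π d hd)
    apply lintegral_mono
    intro q
    exact Set.indicator_le_self _ _ q
  · filter_upwards [eventually_gt_atTop 0] with d hd
    exact (Q_le_split π hmarg d hd).trans (add_le_add le_rfl (far_le π hmarg i0 d hd))

/-- universal bound -/
noncomputable def K3 : ℝ≥0∞ := 1 + (K2 + ENNReal.ofReal (1 / kap))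

theorem K3_lt_top : K3 < ⊤ := by
  unfold K3
  exact ENNReal.add_lt_top.mpr ⟨ENNReal.one_lt_top, ENNReal.add_lt_top.mpr
    ⟨K2_lt_top, ENNReal.ofReal_lt_top⟩⟩

theorem Q_le (hmarg : ∀ i, π.map (fun X => X i) = gaussianReal 0 1) (d : ℕ) : Q π d ≤ K3 := by
  obtain ⟨i0⟩ := (inferInstance : Nonempty ι)
  have hm : MeasurableSet (Neg ι ×ˢ (univ : Set ℝ)) := measurableSet_Neg.prod MeasurableSet.univ
  rcases Nat.eq_zero_or_pos d with hd | hd
  · subst hd
    unfold Q
    simp
  · have h1 := (Q_le_split π hmarg d hd).trans (add_le_add le_rfl (far_le π hmarg i0 d hd))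
    refine h1.trans ?_
    unfold K3
    have hk := kap_pos
    apply add_le_add
    · rw [← ENNReal.ofReal_natCast, ← ENNReal.ofReal_mul (Nat.cast_nonneg d)]
      rw [← ENNReal.ofReal_one]
      apply ENNReal.ofReal_le_ofReal
      have : (d : ℝ) ≤ 2 ^ d := by exact_mod_cast (Nat.lt_two_pow_self (n := d)).le
      rw [one_div_pow, mul_one_div, div_le_one (by positivity)]
      exact this
    · apply add_le_add
      · calc ∫⁻ q in Neg ι ×ˢ (univ : Set ℝ), G1 π i0 d q ∂(π.prod volume)
            ≤ ∫⁻ q in Neg ι ×ˢ (univ : Set ℝ), Gst i0 q ∂(π.prod volume) :=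
              setLIntegral_mono' hm fun q hq => G1_le π hmarg i0 d hd q hq.1
          _ ≤ K2 := lintegral_Gst π hmarg i0
      · rw [← ENNReal.ofReal_natCast, ← ENNReal.ofReal_mul (Nat.cast_nonneg d)]
        apply ENNReal.ofReal_le_ofReal
        have h2 := Real.add_one_le_exp (kap * d)
        rw [Real.exp_neg, ← div_eq_mul_inv, div_le_div_iff₀ (Real.exp_pos _) hk]
        nlinarith

theorem Qinf_pos (hneg : π (Neg ι) ≠ 0) : Qinf π ≠ 0 := by
  intro h
  unfold Qinf at h
  have hm : MeasurableSet (Neg ι ×ˢ (univ : Set ℝ)) := measurableSet_Neg.prod MeasurableSet.univ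
  have hgm : Measurable (Ginf π) := by
    unfold Ginf gg
    apply Measurable.ennreal_ofReal
    apply Measurable.const_mul
    apply Measurable.exp
    apply Measurable.neg
    apply Measurable.mul (by fun_prop)
    apply Measurable.const_mul
    have h1 : StronglyMeasurable (fun r : ((ι → ℝ) × ℝ) × (ι → ℝ) => max (RR r.1.1 r.2) 0) := by
      apply Measurable.stronglyMeasurable
      apply Measurable.max _ measurable_const
      exact measurable_RR.comp ((measurable_fst.comp measurable_fst).prodMk measurable_snd)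
    exact (h1.integral_prod_right (ν := π)).measurable
  rw [lintegral_eq_zero_iff hgm] at h
  have h2 : ∀ᵐ q ∂(π.prod (volume : Measure ℝ)).restrict (Neg ι ×ˢ (univ : Set ℝ)), False := by
    filter_upwards [h] with q hq
    have h3 : 0 < Ginf π q := by
      unfold Ginf
      rw [ENNReal.ofReal_pos]
      have := c0_pos
      positivity
    rw [hq] at h3
    exact lt_irrefl _ h3
  have h4 : (π.prod (volume : Measure ℝ)).restrict (Neg ι ×ˢ (univ : Set ℝ)) = 0 := by
    rw [← ae_eq_bot]
    exact Filter.eventually_false_iff_eq_bot.mp h2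
  rw [Measure.restrict_eq_zero, Measure.prod_prod] at h4
  rcases mul_eq_zero.mp h4 with h5 | h5
  · exact hneg h5
  · simp at h5

end Pool.Agent.Lib.MP_da621d_pr
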