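import Mathlib
import Pool.Agent.Lib.MP_da621d_pr.Basic

namespace Pool.Agent.Lib.MP_da621d_pr

open MeasureTheory ProbabilityTheory Set Matrix
open scoped ENNReal NNReal MatrixOrder

theorem exists_root {d : ℕ} (A : Matrix (Fin d) (Fin d) ℝ) (hA : A.PosSemidef) :
    ∃ B : Matrix (Fin d) (Fin d) ℝ, Bᵀ * B = A := by
  have h0 : 0 ≤ A := nonneg_iff_posSemidef.mpr hA
  refine ⟨CFC.sqrt A, ?_⟩
  have h1 : CFC.sqrt A * CFC.sqrt A = A := CFC.sqrt_mul_sqrt_self A h0
  have h2 : (CFC.sqrt A)ᵀ = CFC.sqrt A := by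
    have h3 : IsSelfAdjoint (CFC.sqrt A) := (CFC.sqrt_nonneg A).isSelfAdjoint
    have h4 := h3.star_eq
    rw [star_eq_conjTranspose] at h4
    rwa [conjTranspose_eq_transpose_of_trivial] at h4
  rw [h2, h1]

theorem posDef_one_add {k d : ℕ} (Λ : Matrix (Fin k) (Fin d) ℝ) :
    (1 + Λᵀ * Λ).PosDef := by
  have h := posSemidef_conjTranspose_mul_self Λ
  rw [conjTranspose_eq_transpose_of_trivial] at h
  exact Matrix.PosDef.add_posSemidef Matrix.PosDef.one h

theorem sigmaFinite_smul_const {α : Type*} [MeasurableSpace α] (μ : Measure α)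
    [SigmaFinite μ] (c : ℝ≥0∞) (hc : c ≠ ⊤) : SigmaFinite (c • μ) := by
  lift c to ℝ≥0 using hc
  exact (SMul.sigmaFinite c : SigmaFinite (c • μ))

theorem pi_smul_const {ι α : Type*} [Fintype ι] [MeasurableSpace α] (μ : Measure α)
    [SigmaFinite μ] (c : ℝ≥0∞) (hc : c ≠ ⊤) :
    Measure.pi (fun _ : ι => c • μ) = c ^ (Fintype.card ι) • Measure.pi (fun _ : ι => μ) := by
  have : SigmaFinite (c • μ) := sigmaFinite_smul_const μ c hc
  apply Measure.pi_eq
  intro s _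
  rw [Measure.smul_apply, Measure.pi_pi, smul_eq_mul]
  simp only [Measure.smul_apply, smul_eq_mul]
  rw [Finset.prod_mul_distrib, Finset.prod_const, Finset.card_univ]

/-- matrix product of arrays -/
def mm {ι κ μ : Type*} [Fintype κ] (A : ι → κ → ℝ) (B : κ → μ → ℝ) : ι → μ → ℝ :=
  fun i j => ∑ l, A i l * B l j

theorem mm_eq {ι κ μ : Type*} [Fintype κ] (A : ι → κ → ℝ) (B : κ → μ → ℝ) :
    (Matrix.of (mm A B)) = Matrix.of A * Matrix.of B := rfl

theorem measurable_mm {ι κ μ : Type*} [Fintype κ] :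
    Measurable (fun p : (ι → κ → ℝ) × (κ → μ → ℝ) => mm p.1 p.2) := by
  unfold mm
  fun_prop

theorem tr_mm {ι κ μ : Type*} [Fintype κ] (A : ι → κ → ℝ) (B : κ → μ → ℝ) :
    tr (mm A B) = mm (tr B) (tr A) := by
  unfold tr mm
  ext i j
  apply Finset.sum_congr rfl
  intro l _
  ring

/-- determinant of an array -/
noncomputable def dt {d : ℕ} (G : Fin d → Fin d → ℝ) : ℝ := (Matrix.of G).det

theorem dt_tr {d : ℕ} (G : Fin d → Fin d → ℝ) : dt (tr G) = dt G := by
  unfold dt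
  exact Matrix.det_transpose (Matrix.of G)

theorem dt_mm {d : ℕ} (A B : Fin d → Fin d → ℝ) : dt (mm A B) = dt A * dt B := by
  unfold dt
  rw [mm_eq, Matrix.det_mul]

theorem measurable_dt {d : ℕ} : Measurable (dt (d := d)) := by
  unfold dt
  apply Continuous.measurable
  apply Continuous.matrix_det
  exact continuous_id

theorem map_mulR {k d : ℕ} (G : Fin d → Fin d → ℝ) (hG : dt G ≠ 0) :
    (volume : Measure (Fin k → Fin d → ℝ)).map (fun Λ => mm Λ G) =
      (ENNReal.ofReal |(dt G)⁻¹|) ^ k • (volume : Measure (Fin k → Fin d → ℝ)) := by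
  have h1 : (volume : Measure (Fin d → ℝ)).map (fun x => (fun j => ∑ l, x l * G l j)) =
      ENNReal.ofReal |(dt G)⁻¹| • volume := by
    have h2 := Real.map_matrix_volume_pi_eq_smul_volume_pi (M := (Matrix.of G)ᵀ)
      (by rw [Matrix.det_transpose]; exact hG)
    rw [Matrix.det_transpose] at h2
    have h3 : ⇑(Matrix.toLin' (Matrix.of G)ᵀ) = (fun x : Fin d → ℝ =>
        (fun j => ∑ l, x l * G l j)) := by
      ext x j
      rw [Matrix.toLin'_apply, Matrix.mulVec_transpose]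
      rfl
    rw [h3] at h2
    exact h2
  have hfin : ENNReal.ofReal |(dt G)⁻¹| ≠ ⊤ := ENNReal.ofReal_ne_top
  have h4 : SigmaFinite ((volume : Measure (Fin d → ℝ)).map
      (fun x => (fun j => ∑ l, x l * G l j))) := by
    rw [h1]
    exact sigmaFinite_smul_const _ _ hfin
  have hmeas : Measurable (fun x : Fin d → ℝ => (fun j => ∑ l, x l * G l j)) := by fun_prop
  have h5 := Measure.pi_map_pi (ι := Fin k) (μ := fun _ => (volume : Measure (Fin d → ℝ)))
    (f := fun _ => (fun x : Fin d → ℝ => (fun j => ∑ l, x l * G l j)))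
    (fun _ => hmeas.aemeasurable)
  have h6 : (fun (Λ : Fin k → Fin d → ℝ) => mm Λ G) =
      (fun x i => (fun x : Fin d → ℝ => (fun j => ∑ l, x l * G l j)) (x i)) := rfl
  rw [h6]
  have h7 : (volume : Measure (Fin k → Fin d → ℝ)) =
      Measure.pi (fun _ => (volume : Measure (Fin d → ℝ))) := rfl
  rw [h7, h5]
  simp only [h1]
  rw [pi_smul_const _ _ hfin, Fintype.card_fin]

/-- change of variables `X = Λ G` -/
theorem lintegral_mulR {k d : ℕ} (G : Fin d → Fin d → ℝ) (hG : dt G ≠ 0)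
    (f : (Fin k → Fin d → ℝ) → ℝ≥0∞) (hf : Measurable f) :
    ∫⁻ X, f X = ENNReal.ofReal (|dt G| ^ k) * ∫⁻ Λ : Fin k → Fin d → ℝ, f (mm Λ G) := by
  have hm : Measurable (fun Λ : Fin k → Fin d → ℝ => mm Λ G) := by
    unfold mm; fun_prop
  rw [← lintegral_map hf hm, map_mulR G hG, lintegral_smul_measure, smul_eq_mul, ← mul_assoc,
    ← ENNReal.ofReal_pow (abs_nonneg _), ← ENNReal.ofReal_mul (by positivity), ← mul_pow, abs_inv,
    mul_inv_cancel₀ (abs_ne_zero.mpr hG), one_pow, ENNReal.ofReal_one, one_mul]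

/-- change of variables `G' = B G` -/
theorem lintegral_mulL {d : ℕ} (B : Fin d → Fin d → ℝ) (hB : dt B ≠ 0)
    (f : (Fin d → Fin d → ℝ) → ℝ≥0∞) (hf : Measurable f) :
    ∫⁻ G, f G = ENNReal.ofReal (|dt B| ^ d) * ∫⁻ G : Fin d → Fin d → ℝ, f (mm B G) := by
  rw [← lintegral_tr f hf, lintegral_mulR (tr B) (by rw [dt_tr]; exact hB) (fun A => f (tr A))
    (hf.comp measurable_tr), dt_tr]
  congr 1
  rw [← lintegral_tr (fun G => f (mm B G)) (by
    have : Measurable (fun G : Fin d → Fin d → ℝ => mm B G) := by unfold mm; fun_prop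
    exact hf.comp this)]
  apply lintegral_congr
  intro A
  rw [tr_mm]
  rfl

theorem sum_sq_eq_trace {k d : ℕ} (A : Fin k → Fin d → ℝ) :
    ∑ i, ∑ j, A i j ^ 2 = ((Matrix.of A)ᵀ * (Matrix.of A)).trace := by
  rw [Matrix.trace]
  simp only [Matrix.diag_apply, Matrix.mul_apply, Matrix.transpose_apply, Matrix.of_apply]
  rw [Finset.sum_comm]
  apply Finset.sum_congr rfl
  intro j _
  apply Finset.sum_congr rfl
  intro i _
  ring

theorem Phi_mul_Phi {k d : ℕ} (Λ : Fin k → Fin d → ℝ) (B : Fin d → Fin d → ℝ)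
    (hB : (Matrix.of B)ᵀ * (Matrix.of B) = 1 + (Matrix.of Λ)ᵀ * (Matrix.of Λ))
    (G : Fin d → Fin d → ℝ) :
    Phi G * Phi (mm Λ G) = c0 ^ (k * d) * Phi (mm B G) := by
  rw [Phi_eq, Phi_eq, Phi_eq]
  simp only [Fintype.card_fin]
  have h1 : (∑ i, ∑ j, G i j ^ 2) + (∑ i, ∑ j, (mm Λ G) i j ^ 2) =
      ∑ i, ∑ j, (mm B G) i j ^ 2 := by
    rw [sum_sq_eq_trace, sum_sq_eq_trace, sum_sq_eq_trace, mm_eq, mm_eq, ← Matrix.trace_add]
    congr 1
    rw [Matrix.transpose_mul, Matrix.transpose_mul, Matrix.mul_assoc, Matrix.mul_assoc,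
      ← Matrix.mul_assoc (Matrix.of Λ)ᵀ, ← Matrix.mul_assoc (Matrix.of B)ᵀ, hB, Matrix.add_mul,
      Matrix.mul_add, Matrix.one_mul]
  rw [← h1]
  have h2 : -((∑ i, ∑ j, G i j ^ 2) + (∑ i, ∑ j, (mm Λ G) i j ^ 2)) / 2 =
      -(∑ i, ∑ j, G i j ^ 2) / 2 + -(∑ i, ∑ j, (mm Λ G) i j ^ 2) / 2 := by ring
  rw [h2, Real.exp_add]
  ring

/-- `D(Λ) = √det(1 + Λᵀ Λ)`. -/
noncomputable def Dd {k d : ℕ} (Λ : Fin k → Fin d → ℝ) : ℝ :=
  √((1 + (Matrix.of Λ)ᵀ * (Matrix.of Λ)).det)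

theorem Dd_pos {k d : ℕ} (Λ : Fin k → Fin d → ℝ) : 0 < Dd Λ :=
  Real.sqrt_pos.mpr (posDef_one_add _).det_pos

theorem Dd_tr {k d : ℕ} (Λ : Fin k → Fin d → ℝ) : Dd (tr Λ) = Dd Λ := by
  unfold Dd
  congr 1
  have h1 : Matrix.of (tr Λ) = (Matrix.of Λ)ᵀ := rfl
  rw [h1, Matrix.transpose_transpose, Matrix.det_one_add_mul_comm]

theorem measurable_Dd {k d : ℕ} : Measurable (Dd (k := k) (d := d)) := by
  unfold Dd
  apply Continuous.measurable
  apply Real.continuous_sqrt.comp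
  apply Continuous.matrix_det
  apply Continuous.add continuous_const
  apply Continuous.matrix_mul
  · exact Continuous.matrix_transpose continuous_id
  · exact continuous_id

/-- The normalising constant `C_{d,k}`. -/
noncomputable def Cst (d k : ℕ) : ℝ≥0∞ :=
  ENNReal.ofReal (c0 ^ (k * d)) * ∫⁻ G : Fin d → Fin d → ℝ, ENNReal.ofReal (|dt G| ^ k * Phi G)

theorem inner_integral {k d : ℕ} (Λ : Fin k → Fin d → ℝ) :
    ∫⁻ G : Fin d → Fin d → ℝ, ENNReal.ofReal (|dt G| ^ k * (Phi G * Phi (mm Λ G))) =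
      ENNReal.ofReal ((Dd Λ)⁻¹ ^ (k + d)) * Cst d k := by
  obtain ⟨B', hB'⟩ := exists_root _ (posDef_one_add (Matrix.of Λ)).posSemidef
  set B : Fin d → Fin d → ℝ := fun i j => B' i j with hBdef
  have hB : (Matrix.of B)ᵀ * (Matrix.of B) = 1 + (Matrix.of Λ)ᵀ * (Matrix.of Λ) := hB'
  have hdet : |dt B| = Dd Λ := by
    unfold Dd
    rw [← hB, Matrix.det_mul, Matrix.det_transpose, ← sq, Real.sqrt_sq_eq_abs]
    rfl
  have hD := Dd_pos Λ
  have hdt : dt B ≠ 0 := by
    rw [← abs_pos, hdet]; exact hD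
  have hmeas : Measurable (fun G : Fin d → Fin d → ℝ => ENNReal.ofReal (|dt G| ^ k * Phi G)) := by
    apply Measurable.ennreal_ofReal
    exact (measurable_dt.abs.pow_const k).mul measurable_Phi
  have h1 := lintegral_mulL B hdt (fun G => ENNReal.ofReal (|dt G| ^ k * Phi G)) hmeas
  unfold Cst
  rw [h1]
  have h2 : ∀ G : Fin d → Fin d → ℝ, ENNReal.ofReal (|dt G| ^ k * (Phi G * Phi (mm Λ G))) =
      ENNReal.ofReal (c0 ^ (k * d) * (Dd Λ)⁻¹ ^ k) *
        ENNReal.ofReal (|dt (mm B G)| ^ k * Phi (mm B G)) := by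
    intro G
    rw [← ENNReal.ofReal_mul (by have := c0_pos; positivity), Phi_mul_Phi Λ B hB, dt_mm, abs_mul,
      hdet]
    congr 1
    rw [mul_pow]
    have : (Dd Λ)⁻¹ ^ k * (Dd Λ) ^ k = 1 := by
      rw [← mul_pow, inv_mul_cancel₀ hD.ne', one_pow]
    calc |dt G| ^ k * (c0 ^ (k * d) * Phi (mm B G)) =
          c0 ^ (k * d) * 1 * (|dt G| ^ k * Phi (mm B G)) := by ring
      _ = _ := by rw [← this]; ring
  simp_rw [h2]
  have hmeas2 : Measurable (fun G : Fin d → Fin d → ℝ =>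
      ENNReal.ofReal (|dt (mm B G)| ^ k * Phi (mm B G))) := by
    have : Measurable (fun G : Fin d → Fin d → ℝ => mm B G) := by unfold mm; fun_prop
    exact hmeas.comp this
  rw [lintegral_const_mul _ hmeas2, ← hdet]
  have hc := c0_pos
  rw [← mul_assoc, ← mul_assoc, ← ENNReal.ofReal_mul (by positivity),
    ← ENNReal.ofReal_mul (by positivity)]
  congr 2
  rw [pow_add]
  have : |dt B|⁻¹ ^ d * |dt B| ^ d = 1 := by
    rw [← mul_pow, inv_mul_cancel₀ (abs_ne_zero.mpr hdt), one_pow]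
  calc c0 ^ (k * d) * |dt B|⁻¹ ^ k = |dt B|⁻¹ ^ k * c0 ^ (k * d) * 1 := by ring
    _ = _ := by rw [← this]; ring

theorem jointMeas {k d : ℕ} :
    Measurable (fun p : (Fin d → Fin d → ℝ) × (Fin k → Fin d → ℝ) =>
      ENNReal.ofReal (|dt p.1| ^ k * Phi (mm p.2 p.1))) := by
  apply Measurable.ennreal_ofReal
  apply Measurable.mul
  · exact (measurable_dt.comp measurable_fst).abs.pow_const k
  · exact measurable_Phi.comp (measurable_mm.comp (measurable_snd.prodMk measurable_fst))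

/-- The main formula: integrals over Gaussian matrices of the mass of `S_G = E G`. -/
theorem main_formula {k d : ℕ} (E : Set (Fin k → Fin d → ℝ)) (hE : MeasurableSet E)
    (S : (Fin d → Fin d → ℝ) → Set (Fin k → Fin d → ℝ))
    (hSm : ∀ G, dt G ≠ 0 → MeasurableSet (S G))
    (hS : ∀ G, dt G ≠ 0 → ∀ Λ, mm Λ G ∈ S G ↔ Λ ∈ E)
    (hnull : ∀ᵐ G ∂(gam2 (Fin d) (Fin d)), dt G ≠ 0) :
    ∫⁻ G, (gam2 (Fin k) (Fin d)) (S G) ∂(gam2 (Fin d) (Fin d)) =
      Cst d k * ∫⁻ Λ in E, ENNReal.ofReal ((Dd Λ)⁻¹ ^ (k + d)) := by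
  have h1 : ∀ᵐ G ∂(gam2 (Fin d) (Fin d)), (gam2 (Fin k) (Fin d)) (S G) =
      ∫⁻ Λ in E, ENNReal.ofReal (|dt G| ^ k * Phi (mm Λ G)) := by
    filter_upwards [hnull] with G hG
    rw [gam2_eq, withDensity_apply _ (hSm G hG), ← lintegral_indicator (hSm G hG),
      lintegral_mulR G hG _ (measurable_Phi.ennreal_ofReal.indicator (hSm G hG)),
      ← lintegral_indicator hE, ← lintegral_const_mul]
    · apply lintegral_congr
      intro Λ
      by_cases h : Λ ∈ E
      · rw [Set.indicator_of_mem h, Set.indicator_of_mem ((hS G hG Λ).mpr h),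
          ← ENNReal.ofReal_mul (by positivity)]
      · rw [Set.indicator_of_notMem h, Set.indicator_of_notMem
          (fun h' => h ((hS G hG Λ).mp h')), mul_zero]
    · have : Measurable (fun Λ : Fin k → Fin d → ℝ => mm Λ G) := by unfold mm; fun_prop
      exact (measurable_Phi.ennreal_ofReal.indicator (hSm G hG)).comp this
  rw [lintegral_congr_ae h1]
  have hDm : Measurable (fun Λ : Fin k → Fin d → ℝ => ENNReal.ofReal ((Dd Λ)⁻¹ ^ (k + d))) :=
    Measurable.ennreal_ofReal ((measurable_Dd.inv).pow_const _)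
  rw [lintegral_lintegral_swap (jointMeas (k := k) (d := d)).aemeasurable, mul_comm,
    ← lintegral_mul_const _ hDm]
  apply lintegral_congr
  intro Λ
  have hGm : Measurable (fun G : Fin d → Fin d → ℝ =>
      ENNReal.ofReal (|dt G| ^ k * Phi (mm Λ G))) := by
    have h := (jointMeas (k := k) (d := d)).comp
      ((measurable_id (α := Fin d → Fin d → ℝ)).prodMk (measurable_const (a := Λ)))
    exact h
  rw [lintegral_gam2 _ hGm, ← inner_integral Λ]
  apply lintegral_congr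
  intro G
  rw [← ENNReal.ofReal_mul (Phi_pos G).le]
  congr 1
  ring

end Pool.Agent.Lib.MP_da621d_pr
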