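import Mathlib
import Pool.Agent.Lib.MP_da621d_pr.Duality

namespace Pool.Agent.Lib.MP_da621d_pr

open MeasureTheory ProbabilityTheory Set Matrix
open scoped ENNReal NNReal

/-- the identity array -/
def idd (d : ℕ) : Fin d → Fin d → ℝ := fun i j => (1 : Matrix (Fin d) (Fin d) ℝ) i j

theorem finite_shift_roots {d : ℕ} (G : Fin d → Fin d → ℝ) :
    {t : ℝ | dt (G + t • idd d) = 0}.Finite := by
  have h1 : (Matrix.charpoly (-(Matrix.of G))) ≠ 0 := (Matrix.charpoly_monic _).ne_zero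
  apply (Polynomial.finite_setOfPred_isRoot h1).subset
  intro t ht
  rw [Set.mem_ofPred_eq] at ht ⊢
  rw [Polynomial.IsRoot, Matrix.eval_charpoly]
  rw [← ht]
  unfold dt
  congr 1
  rw [sub_neg_eq_add]
  ext i j
  simp [Matrix.scalar_apply, Matrix.diagonal_apply, idd, Matrix.one_apply]
  ring

theorem volume_dt_zero (d : ℕ) :
    (volume : Measure (Fin d → Fin d → ℝ)) {G | dt G = 0} = 0 := by
  set I : Fin d → Fin d → ℝ := idd d with hI
  set S : Set (ℝ × (Fin d → Fin d → ℝ)) := {p | dt (p.2 + p.1 • I) = 0} with hS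
  have hSm : MeasurableSet S := by
    have h1 : Measurable (fun p : ℝ × (Fin d → Fin d → ℝ) => dt (p.2 + p.1 • I)) := by
      apply measurable_dt.comp
      fun_prop
    exact h1 (measurableSet_singleton 0)
  have h0 : ((volume : Measure (Fin d → Fin d → ℝ)).prod (volume : Measure ℝ))
      (Prod.swap ⁻¹' S) = 0 := by
    rw [Measure.measure_prod_null (measurable_swap hSm)]
    refine Filter.Eventually.of_forall fun G => ?_
    have h2 := finite_shift_roots G
    exact h2.measure_zero volume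
  have h1 : ((volume : Measure ℝ).prod (volume : Measure (Fin d → Fin d → ℝ))) S = 0 := by
    rw [← Measure.prod_swap, Measure.map_apply measurable_swap hSm]
    exact h0
  rw [Measure.measure_prod_null hSm] at h1
  obtain ⟨t, ht⟩ := h1.exists
  have h3 : (Prod.mk t ⁻¹' S) = (fun G : Fin d → Fin d → ℝ => G + t • I) ⁻¹' {G | dt G = 0} := rfl
  have h4 : (volume : Measure (Fin d → Fin d → ℝ)) (Prod.mk t ⁻¹' S) = 0 := ht
  rw [h3, measure_preimage_add_right] at h4
  exact h4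

theorem ae_dt_ne_zero (d : ℕ) : ∀ᵐ G ∂(gam2 (Fin d) (Fin d)), dt G ≠ 0 := by
  rw [gam2_eq]
  apply (withDensity_absolutelyContinuous _ _).ae_le
  have h : ∀ᵐ G : Fin d → Fin d → ℝ, dt G ≠ 0 := by
    rw [ae_iff]
    simp only [not_not]
    exact volume_dt_zero d
  exact h

/-- positive hull -/
def posHull {ι E : Type*} [Fintype ι] [AddCommMonoid E] [Module ℝ E] (x : ι → E) : Set E :=
  {v | ∃ c : ι → ℝ, (∀ i, 0 ≤ c i) ∧ v = ∑ i, c i • x i}

theorem posHull_eq {d : ℕ} (G : Fin d → Fin d → ℝ) (hG : dt G ≠ 0) :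
    posHull G = {x : Fin d → ℝ | ∀ j, 0 ≤ (x ᵥ* (Matrix.of G)⁻¹) j} := by
  have hu : IsUnit (Matrix.of G).det := Ne.isUnit hG
  have hsum : ∀ c : Fin d → ℝ, ∑ i, c i • G i = c ᵥ* (Matrix.of G) := by
    intro c
    ext j
    rw [Finset.sum_apply]
    rfl
  ext x
  constructor
  · rintro ⟨c, hc, rfl⟩
    rw [Set.mem_ofPred_eq, hsum, Matrix.vecMul_vecMul, Matrix.mul_nonsing_inv _ hu,
      Matrix.vecMul_one]
    exact hc
  · intro hx
    refine ⟨x ᵥ* (Matrix.of G)⁻¹, hx, ?_⟩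
    rw [hsum, Matrix.vecMul_vecMul, Matrix.nonsing_inv_mul _ hu, Matrix.vecMul_one]

theorem measurableSet_posHull {d : ℕ} (G : Fin d → Fin d → ℝ) (hG : dt G ≠ 0) :
    MeasurableSet (posHull G) := by
  rw [posHull_eq G hG]
  have : {x : Fin d → ℝ | ∀ j, 0 ≤ (x ᵥ* (Matrix.of G)⁻¹) j} =
      ⋂ j, {x : Fin d → ℝ | 0 ≤ (x ᵥ* (Matrix.of G)⁻¹) j} := by
    ext x; simp
  rw [this]
  apply MeasurableSet.iInter
  intro j
  apply measurableSet_le measurable_const
  unfold Matrix.vecMul dotProduct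
  fun_prop

/-- The mixed moment `m(d,k)` in Gaussian form. -/
noncomputable def mom (d k : ℕ) : ℝ≥0∞ :=
  ∫⁻ G, (gam (Fin d) (posHull G)) ^ k ∂(gam2 (Fin d) (Fin d))

theorem mom_eq (d k : ℕ) : mom d k = Cst d k *
    ∫⁻ Λ in {Λ : Fin k → Fin d → ℝ | ∀ i j, 0 ≤ Λ i j}, ENNReal.ofReal ((Dd Λ)⁻¹ ^ (k + d)) := by
  have hE : MeasurableSet {Λ : Fin k → Fin d → ℝ | ∀ i j, 0 ≤ Λ i j} := by
    have : {Λ : Fin k → Fin d → ℝ | ∀ i j, 0 ≤ Λ i j} =
        ⋂ i, ⋂ j, {Λ : Fin k → Fin d → ℝ | 0 ≤ Λ i j} := by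
      ext Λ; simp
    rw [this]
    refine MeasurableSet.iInter fun i => MeasurableSet.iInter fun j => ?_
    exact measurableSet_le measurable_const (by fun_prop)
  have h := main_formula (k := k) (d := d) _ hE
    (fun G => Set.univ.pi (fun _ => posHull G))
    (fun G hG => MeasurableSet.univ_pi fun _ => measurableSet_posHull G hG)
    (fun G hG Λ => by
      rw [Set.mem_univ_pi, Set.mem_ofPred_eq]
      have hu : IsUnit (Matrix.of G).det := Ne.isUnit hG
      have h1 : ∀ i, mm Λ G i = Λ i ᵥ* (Matrix.of G) := fun i => rfl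
      constructor
      · intro h i
        have h2 := h i
        rw [posHull_eq G hG, Set.mem_ofPred_eq, h1 i, Matrix.vecMul_vecMul,
          Matrix.mul_nonsing_inv _ hu, Matrix.vecMul_one] at h2
        exact h2
      · intro h i
        rw [posHull_eq G hG, Set.mem_ofPred_eq, h1 i, Matrix.vecMul_vecMul,
          Matrix.mul_nonsing_inv _ hu, Matrix.vecMul_one]
        exact h i)
    (ae_dt_ne_zero d)
  rw [← h]
  unfold mom
  apply lintegral_congr
  intro G
  unfold gam2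
  rw [Measure.pi_pi, Finset.prod_const, Finset.card_univ, Fintype.card_fin]

theorem one_eq (d k : ℕ) : 1 = Cst d k *
    ∫⁻ Λ : Fin k → Fin d → ℝ, ENNReal.ofReal ((Dd Λ)⁻¹ ^ (k + d)) := by
  have h := main_formula (k := k) (d := d) Set.univ MeasurableSet.univ
    (fun G => Set.univ) (fun G hG => MeasurableSet.univ)
    (fun G hG Λ => by simp) (ae_dt_ne_zero d)
  rw [Measure.restrict_univ] at h
  rw [← h]
  simp

theorem mom_symm (d k : ℕ) : mom d k = mom k d := by
  have key : ∀ d k : ℕ, mom d k =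
      (∫⁻ Λ in {Λ : Fin k → Fin d → ℝ | ∀ i j, 0 ≤ Λ i j},
        ENNReal.ofReal ((Dd Λ)⁻¹ ^ (k + d))) /
      (∫⁻ Λ : Fin k → Fin d → ℝ, ENNReal.ofReal ((Dd Λ)⁻¹ ^ (k + d))) := by
    intro d k
    have h1 := one_eq d k
    set J := ∫⁻ Λ : Fin k → Fin d → ℝ, ENNReal.ofReal ((Dd Λ)⁻¹ ^ (k + d)) with hJ
    have h2 : Cst d k = J⁻¹ := by
      have hJ0 : J ≠ 0 := by rintro h; rw [h, mul_zero] at h1; exact one_ne_zero h1
      have hC0 : Cst d k ≠ 0 := by rintro h; rw [h, zero_mul] at h1; exact one_ne_zero h1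
      have hJt : J ≠ ⊤ := by
        intro h
        rw [h, ENNReal.mul_top hC0] at h1
        exact ENNReal.one_ne_top h1
      exact ENNReal.eq_inv_of_mul_eq_one_left h1.symm
    rw [mom_eq, h2, mul_comm, div_eq_mul_inv]
  rw [key d k, key k d]
  have hDm : ∀ d k : ℕ, Measurable (fun Λ : Fin k → Fin d → ℝ =>
      ENNReal.ofReal ((Dd Λ)⁻¹ ^ (k + d))) := fun d k =>
    Measurable.ennreal_ofReal ((measurable_Dd.inv).pow_const _)
  have hE : ∀ d k : ℕ, MeasurableSet {Λ : Fin k → Fin d → ℝ | ∀ i j, 0 ≤ Λ i j} := by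
    intro d k
    have : {Λ : Fin k → Fin d → ℝ | ∀ i j, 0 ≤ Λ i j} =
        ⋂ i, ⋂ j, {Λ : Fin k → Fin d → ℝ | 0 ≤ Λ i j} := by
      ext Λ; simp
    rw [this]
    refine MeasurableSet.iInter fun i => MeasurableSet.iInter fun j => ?_
    exact measurableSet_le measurable_const (by fun_prop)
  congr 1
  · rw [← lintegral_indicator (hE d k), ← lintegral_indicator (hE k d),
      ← lintegral_tr _ ((hDm k d).indicator (hE k d))]
    apply lintegral_congr
    intro Λ
    by_cases h : ∀ i j, 0 ≤ Λ i j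
    · rw [Set.indicator_of_mem (show Λ ∈ {Λ : Fin k → Fin d → ℝ | ∀ i j, 0 ≤ Λ i j} from h),
        Set.indicator_of_mem (show tr Λ ∈ {Λ : Fin d → Fin k → ℝ | ∀ i j, 0 ≤ Λ i j} from
          fun i j => h j i), Dd_tr, add_comm]
    · rw [Set.indicator_of_notMem (show Λ ∉ {Λ : Fin k → Fin d → ℝ | ∀ i j, 0 ≤ Λ i j} from h),
        Set.indicator_of_notMem (show tr Λ ∉ {Λ : Fin d → Fin k → ℝ | ∀ i j, 0 ≤ Λ i j} from
          fun h' => h fun i j => h' j i)]
  · rw [← lintegral_tr _ (hDm k d)]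
    apply lintegral_congr
    intro Λ
    rw [Dd_tr, add_comm]

end Pool.Agent.Lib.MP_da621d_pr
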