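import Mathlib
import Pool.Agent.Lib.MP_da621d_pr.Limit2
import Pool.Agent.Lib.MP_da621d_pr.Sym

namespace Pool.Agent.Lib.MP_da621d_pr

open MeasureTheory ProbabilityTheory Set Filter InnerProductSpace
open scoped ENNReal NNReal Topology RealInnerProductSpace

section general

variable {E : Type*} [NormedAddCommGroup E] [InnerProductSpace ℝ E] [FiniteDimensional ℝ E]
  [MeasurableSpace E] [BorelSpace E]

theorem cov_stdGaussian (A B : StrongDual ℝ E) :
    cov[A, B; stdGaussian E] = ⟪(toDual ℝ E).symm A, (toDual ℝ E).symm B⟫ := by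
  have h1 := covarianceBilin_apply_eq_cov (μ := stdGaussian E) IsGaussian.memLp_two_id
    ((toDual ℝ E).symm A) ((toDual ℝ E).symm B)
  rw [covarianceBilin_stdGaussian] at h1
  simp only [toDual_symm_apply] at h1
  exact h1.symm

theorem map_norm_one (L : StrongDual ℝ E) (hL : ‖L‖ = 1) :
    (stdGaussian E).map L = gaussianReal 0 1 := by
  rw [IsGaussian.map_eq_gaussianReal, integral_strongDual_stdGaussian, variance_dual_stdGaussian,
    hL]
  simp

end general

/-- The data attached to `n` independent vectors in an `(n+1)`-dimensional space: `W` gives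
normalised dual coordinates, `Y` the coordinate along the unit normal. -/
structure Frame (n : ℕ) (E : Type*) [NormedAddCommGroup E] [InnerProductSpace ℝ E]
    (v : Fin n → E) where
  W : E →L[ℝ] (Fin n → ℝ)
  Y : E →L[ℝ] ℝ
  s : Fin n → ℝ
  nrm : E
  s_pos : ∀ i, 0 < s i
  W_v : ∀ i j, W (v i) j = if i = j then s j else 0
  Y_v : ∀ i, Y (v i) = 0
  W_nrm : W nrm = 0
  Y_eq : ∀ x, Y x = ⟪nrm, x⟫
  norm_nrm : ‖nrm‖ = 1
  norm_W : ∀ i, ‖(ContinuousLinearMap.proj i : (Fin n → ℝ) →L[ℝ] ℝ).comp W‖ = 1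
  inj : ∀ x y, W x = W y → Y x = Y y → x = y

theorem exists_frame {n : ℕ} {E : Type*} [NormedAddCommGroup E] [InnerProductSpace ℝ E]
    [FiniteDimensional ℝ E] (hE : Module.finrank ℝ E = n + 1) (v : Fin n → E)
    (hv : LinearIndependent ℝ v) : Nonempty (Frame n E v) := by
  -- unit normal
  have hspan : Submodule.span ℝ (Set.range v) ≠ ⊤ := by
    intro h
    have h1 := finrank_span_eq_card hv
    rw [h, finrank_top, hE, Fintype.card_fin] at h1
    omega
  have hperp : (Submodule.span ℝ (Set.range v))ᗮ ≠ ⊥ := by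
    intro h
    exact hspan (Submodule.orthogonal_eq_bot_iff.mp h)
  obtain ⟨u, hu, hu0⟩ := Submodule.exists_mem_ne_zero_of_ne_bot hperp
  set nrm : E := (‖u‖)⁻¹ • u with hnrm
  have hnn : ‖nrm‖ = 1 := by
    rw [hnrm, norm_smul, norm_inv, norm_norm, inv_mul_cancel₀ (norm_ne_zero_iff.mpr hu0)]
  have hnv : ∀ i, ⟪nrm, v i⟫ = 0 := by
    intro i
    rw [hnrm, real_inner_smul_left]
    have h1 : ⟪v i, u⟫ = 0 := hu (v i) (Submodule.subset_span ⟨i, rfl⟩)
    rw [real_inner_comm, h1, mul_zero]
  -- basis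
  have hli : LinearIndependent ℝ (Fin.snoc v nrm : Fin (n + 1) → E) := by
    rw [linearIndependent_finSnoc]
    refine ⟨hv, ?_⟩
    intro hmem
    have h1 : nrm ∈ (Submodule.span ℝ (Set.range v))ᗮ := by
      rw [hnrm]
      exact Submodule.smul_mem _ _ hu
    have h2 : ⟪nrm, nrm⟫ = 0 := h1 nrm hmem
    rw [real_inner_self_eq_norm_sq, hnn] at h2
    norm_num at h2
  set bs : Module.Basis (Fin (n + 1)) ℝ E :=
    basisOfLinearIndependentOfCardEqFinrank hli (by rw [hE, Fintype.card_fin]) with hbs
  have hb1 : ∀ i : Fin n, bs i.castSucc = v i := by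
    intro i
    rw [hbs, coe_basisOfLinearIndependentOfCardEqFinrank, Fin.snoc_castSucc]
  have hb2 : bs (Fin.last n) = nrm := by
    rw [hbs, coe_basisOfLinearIndependentOfCardEqFinrank, Fin.snoc_last]
  -- coordinates
  set cc : Fin n → StrongDual ℝ E := fun i =>
    LinearMap.toContinuousLinearMap (bs.coord i.castSucc) with hcc
  have hccv : ∀ i j, cc j (v i) = if i = j then 1 else 0 := by
    intro i j
    rw [hcc]
    simp only [LinearMap.coe_toContinuousLinearMap', Module.Basis.coord_apply]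
    rw [← hb1 i, Module.Basis.repr_self, Finsupp.single_apply]
    simp [Fin.castSucc_inj]
  have hccn : ∀ j, cc j nrm = 0 := by
    intro j
    rw [hcc]
    simp only [LinearMap.coe_toContinuousLinearMap', Module.Basis.coord_apply]
    rw [← hb2, Module.Basis.repr_self, Finsupp.single_apply]
    simp only [ite_eq_right_iff, one_ne_zero, imp_false]
    exact (Fin.castSucc_lt_last j).ne'
  have hccne : ∀ j, 0 < ‖cc j‖ := by
    intro j
    rw [norm_pos_iff]
    intro h
    have := hccv j j
    rw [h] at this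
    simp at this
  refine ⟨{
    W := ContinuousLinearMap.pi (fun i => (‖cc i‖)⁻¹ • cc i)
    Y := innerSL ℝ nrm
    s := fun i => (‖cc i‖)⁻¹
    nrm := nrm
    s_pos := fun i => inv_pos.mpr (hccne i)
    W_v := ?_
    Y_v := ?_
    W_nrm := ?_
    Y_eq := ?_
    norm_nrm := hnn
    norm_W := ?_
    inj := ?_ }⟩
  · intro i j
    simp only [ContinuousLinearMap.pi_apply, smul_apply, smul_eq_mul]
    rw [hccv]
    split_ifs <;> simp
  · intro i
    exact hnv i
  · ext j
    simp only [ContinuousLinearMap.pi_apply, smul_apply, smul_eq_mul,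
      Pi.zero_apply]
    rw [hccn, mul_zero]
  · intro x
    rfl
  · intro i
    have h1 : (ContinuousLinearMap.proj i : (Fin n → ℝ) →L[ℝ] ℝ).comp
        (ContinuousLinearMap.pi (fun i => (‖cc i‖)⁻¹ • cc i)) = (‖cc i‖)⁻¹ • cc i := by
      ext x; simp
    rw [h1, norm_smul, norm_inv, norm_norm, inv_mul_cancel₀ (hccne i).ne']
  · intro x y hW hY
    have hcx : ∀ i, cc i x = cc i y := by
      intro i
      have h1 := congrFun hW i
      simp only [ContinuousLinearMap.pi_apply, smul_apply, smul_eq_mul] at h1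
      exact mul_left_cancel₀ (inv_ne_zero (hccne i).ne') h1
    have hrep : ∀ z : E, z = ∑ i, cc i z • v i + bs.repr z (Fin.last n) • nrm := by
      intro z
      conv_lhs => rw [← bs.sum_repr z]
      rw [Fin.sum_univ_castSucc]
      simp only [hb1, hb2]
      rfl
    have hYz : ∀ z : E, ⟪nrm, z⟫ = bs.repr z (Fin.last n) := by
      intro z
      conv_lhs => rw [hrep z]
      rw [inner_add_right, inner_sum, real_inner_smul_right, real_inner_self_eq_norm_sq, hnn]
      simp only [real_inner_smul_right, hnv, mul_zero, Finset.sum_const_zero, zero_add, one_pow,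
        mul_one]
    rw [hrep x, hrep y]
    have hY' : ⟪nrm, x⟫ = ⟪nrm, y⟫ := hY
    rw [hYz, hYz] at hY'
    rw [hY']
    simp only [hcx]

end Pool.Agent.Lib.MP_da621d_pr
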