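import Mathlib
import Pool.Agent.Lib.MP_da621d_pr.Decomp

namespace Pool.Agent.Lib.MP_da621d_pr

set_option linter.unusedSectionVars false

open MeasureTheory ProbabilityTheory Set Filter InnerProductSpace
open scoped ENNReal NNReal Topology RealInnerProductSpace

/-- ambient Euclidean space -/
abbrev EE (n : ℕ) := EuclideanSpace ℝ (Fin n)

variable {n : ℕ} [Nonempty (Fin n)] {v : Fin n → EE (n + 1)} (fr : Frame n (EE (n + 1)) v)

/-- law of the normalised dual coordinates -/
noncomputable def piv : Measure (Fin n → ℝ) := (stdGaussian (EE (n + 1))).map fr.W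

instance : IsProbabilityMeasure (piv fr) := by
  unfold piv
  exact Measure.isProbabilityMeasure_map fr.W.continuous.measurable.aemeasurable

theorem piv_marg (i : Fin n) : (piv fr).map (fun X => X i) = gaussianReal 0 1 := by
  unfold piv
  rw [Measure.map_map (measurable_pi_apply i) fr.W.continuous.measurable]
  exact map_norm_one _ (fr.norm_W i)

theorem norm_Y : ‖fr.Y‖ = 1 := by
  have h1 : fr.Y = innerSL ℝ fr.nrm := by
    ext x; exact fr.Y_eq x
  rw [h1, innerSL_apply_norm, fr.norm_nrm]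

theorem joint_law : (stdGaussian (EE (n + 1))).map (fun x => (fr.W x, fr.Y x)) = rho (piv fr) := by
  have hg : HasGaussianLaw (fun x => (fr.W x, fr.Y x)) (stdGaussian (EE (n + 1))) := by
    have h1 : HasGaussianLaw (id : EE (n + 1) → EE (n + 1)) (stdGaussian (EE (n + 1))) :=
      IsGaussian.hasGaussianLaw_id
    exact h1.map (fr.W.prod fr.Y)
  have hind : IndepFun fr.W fr.Y (stdGaussian (EE (n + 1))) := by
    apply hg.indepFun_of_covariance_strongDual
    intro L₁ L₂
    have h1 : L₂ ∘ fr.Y = ⇑(L₂.comp fr.Y) := rfl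
    have h2 : L₁ ∘ fr.W = ⇑(L₁.comp fr.W) := rfl
    rw [h1, h2, cov_stdGaussian]
    have h3 : (toDual ℝ (EE (n + 1))).symm (L₂.comp fr.Y) = L₂ 1 • fr.nrm := by
      apply (toDual ℝ (EE (n + 1))).injective
      rw [LinearIsometryEquiv.apply_symm_apply]
      ext x
      rw [toDual_apply_apply, real_inner_smul_left, ContinuousLinearMap.comp_apply, fr.Y_eq]
      have h4 : L₂ ⟪fr.nrm, x⟫ = L₂ (⟪fr.nrm, x⟫ • (1 : ℝ)) := by simp
      rw [h4, map_smul, smul_eq_mul, mul_comm]
    rw [h3, toDual_symm_apply, ContinuousLinearMap.comp_apply, map_smul, fr.W_nrm, smul_zero,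
      map_zero]
  rw [(indepFun_iff_map_prod_eq_prod_map_map fr.W.continuous.measurable.aemeasurable
    fr.Y.continuous.measurable.aemeasurable).mp hind, map_norm_one fr.Y (norm_Y fr)]
  rfl

theorem gam_pos_of_open {m : ℕ} (U : Set (Fin m → ℝ)) (hU : IsOpen U) (hne : U.Nonempty) :
    gam (Fin m) U ≠ 0 := by
  intro h
  rw [gam_eq, withDensity_apply_eq_zero (by exact measurable_phi.ennreal_ofReal)] at h
  have h1 : {x : Fin m → ℝ | ENNReal.ofReal (phi x) ≠ 0} ∩ U = U := by
    ext x
    simp only [Set.mem_inter_iff, Set.mem_ofPred_eq, and_iff_right_iff_imp]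
    intro _
    exact (ENNReal.ofReal_pos.mpr (phi_pos x)).ne'
  rw [h1] at h
  exact (hU.measure_pos volume hne).ne' h

theorem map_toLp_gam (m : ℕ) : (gam (Fin m)).map (WithLp.toLp 2) = stdGaussian (EE m) :=
  map_pi_eq_stdGaussian

theorem piv_neg : piv fr (Neg (Fin n)) ≠ 0 := by
  unfold piv
  rw [Measure.map_apply fr.W.continuous.measurable measurableSet_Neg, ← map_toLp_gam,
    Measure.map_apply (by fun_prop) (fr.W.continuous.measurable measurableSet_Neg)]
  apply gam_pos_of_open
  · have hopen : IsOpen (Neg (Fin n)) := by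
      have : Neg (Fin n) = ⋂ i, {Γ : Fin n → ℝ | Γ i < 0} := by ext; simp [Neg]
      rw [this]
      exact isOpen_iInter_of_finite fun i => isOpen_lt (continuous_apply i) continuous_const
    exact (hopen.preimage fr.W.continuous).preimage (PiLp.continuous_toLp 2 _)
  · refine ⟨WithLp.ofLp (-∑ j, v j), ?_⟩
    rw [Set.mem_preimage, Set.mem_preimage, WithLp.toLp_ofLp]
    intro i
    rw [map_neg, map_sum, Pi.neg_apply, Finset.sum_apply]
    simp only [fr.W_v]
    rw [Finset.sum_ite_eq' Finset.univ i]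
    simp only [Finset.mem_univ, if_true]
    have := fr.s_pos i
    linarith

/-- membership in the cone in terms of the frame. -/
theorem mem_hull_iff (g : EE (n + 1)) (hg : fr.Y g ≠ 0) (x : EE (n + 1)) :
    x ∈ posHull (Fin.snoc v g : Fin (n + 1) → EE (n + 1)) ↔
      0 ≤ fr.Y x / fr.Y g ∧ ∀ i, fr.Y x / fr.Y g * fr.W g i ≤ fr.W x i := by
  constructor
  · rintro ⟨c, hc, rfl⟩
    have hY : fr.Y (∑ i, c i • (Fin.snoc v g : Fin (n + 1) → EE (n + 1)) i) =
        c (Fin.last n) * fr.Y g := by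
      rw [map_sum, Fin.sum_univ_castSucc]
      simp only [Fin.snoc_castSucc, Fin.snoc_last, map_smul, fr.Y_v, smul_eq_mul, mul_zero,
        Finset.sum_const_zero, zero_add]
    rw [hY, mul_div_cancel_right₀ _ hg]
    refine ⟨hc _, fun j => ?_⟩
    have hW : fr.W (∑ i, c i • (Fin.snoc v g : Fin (n + 1) → EE (n + 1)) i) j =
        c j.castSucc * fr.s j + c (Fin.last n) * fr.W g j := by
      rw [map_sum, Fin.sum_univ_castSucc, Pi.add_apply, Finset.sum_apply]
      simp only [Fin.snoc_castSucc, Fin.snoc_last, map_smul, Pi.smul_apply, fr.W_v, smul_eq_mul]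
      congr 1
      rw [Finset.sum_eq_single j]
      · rw [if_pos rfl]
      · intro b _ hb
        rw [if_neg hb, mul_zero]
      · intro h; exact absurd (Finset.mem_univ j) h
    rw [hW]
    have := mul_nonneg (hc j.castSucc) (fr.s_pos j).le
    linarith
  · rintro ⟨h1, h2⟩
    set t := fr.Y x / fr.Y g with ht
    refine ⟨Fin.snoc (fun i => (fr.W x i - t * fr.W g i) / fr.s i) t, ?_, ?_⟩
    · intro i
      refine Fin.lastCases ?_ (fun i => ?_) i
      · rw [Fin.snoc_last]; exact h1
      · rw [Fin.snoc_castSucc]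
        have := h2 i
        exact div_nonneg (by linarith) (fr.s_pos i).le
    · apply fr.inj
      · ext j
        rw [map_sum, Fin.sum_univ_castSucc, Pi.add_apply, Finset.sum_apply]
        simp only [Fin.snoc_castSucc, Fin.snoc_last, map_smul, Pi.smul_apply, fr.W_v, smul_eq_mul]
        rw [Finset.sum_eq_single j]
        · rw [if_pos rfl]
          have := (fr.s_pos j).ne'
          field_simp
          ring
        · intro b _ hb
          rw [if_neg hb, mul_zero]
        · intro h; exact absurd (Finset.mem_univ j) h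
      · rw [map_sum, Fin.sum_univ_castSucc]
        simp only [Fin.snoc_castSucc, Fin.snoc_last, map_smul, fr.Y_v, smul_eq_mul, mul_zero,
          Finset.sum_const_zero, zero_add]
        rw [ht, div_mul_cancel₀ _ hg]

theorem rho_neg_invariant {ι : Type*} [Fintype ι] (π : Measure (ι → ℝ)) [IsProbabilityMeasure π] :
    (rho π).map (fun p => (p.1, -p.2)) = rho π := by
  unfold rho
  have h1 : (gaussianReal 0 1).map (fun x => -x) = gaussianReal 0 1 := by
    have := gaussianReal_map_neg (μ := 0) (v := 1)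
    rw [neg_zero] at this
    exact this
  have h2 : (fun p : (ι → ℝ) × ℝ => (p.1, -p.2)) = Prod.map id (fun x => -x) := rfl
  rw [h2, ← Measure.map_prod_map _ _ measurable_id measurable_neg, Measure.map_id, h1]

theorem AA_eq_two {ι : Type*} [Fintype ι] (π : Measure (ι → ℝ)) [IsProbabilityMeasure π]
    (Γ : ι → ℝ) (y : ℝ) (hy : y ≠ 0) :
    AA π Γ y = 2 * (rho π).real {p | 0 ≤ p.2 / y ∧ ∀ i, p.2 / y * Γ i ≤ p.1 i} := by
  set S : Set ((ι → ℝ) × ℝ) := {p | 0 ≤ p.2 / y ∧ ∀ i, p.2 / y * Γ i ≤ p.1 i} with hS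
  set S' : Set ((ι → ℝ) × ℝ) := {p | 0 ≤ (-p.2) / y ∧ ∀ i, (-p.2) / y * Γ i ≤ p.1 i} with hS'
  have hSm : MeasurableSet S := by
    have : S = {p : (ι → ℝ) × ℝ | 0 ≤ p.2 / y} ∩ ⋂ i, {p | p.2 / y * Γ i ≤ p.1 i} := by
      ext; simp [hS]
    rw [this]
    exact (measurableSet_le (by fun_prop) (by fun_prop)).inter
      (MeasurableSet.iInter fun i => measurableSet_le (by fun_prop) (by fun_prop))
  have hS'm : MeasurableSet S' := by
    have : S' = {p : (ι → ℝ) × ℝ | 0 ≤ (-p.2) / y} ∩ ⋂ i, {p | (-p.2) / y * Γ i ≤ p.1 i} := by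
      ext; simp [hS']
    rw [this]
    exact (measurableSet_le (by fun_prop) (by fun_prop)).inter
      (MeasurableSet.iInter fun i => measurableSet_le (by fun_prop) (by fun_prop))
  have h1 : (rho π).real S' = (rho π).real S := by
    have h2 : S' = (fun p : (ι → ℝ) × ℝ => (p.1, -p.2)) ⁻¹' S := rfl
    unfold Measure.real
    rw [h2, ← Measure.map_apply (by fun_prop) hSm, rho_neg_invariant]
  have h3 : {p : (ι → ℝ) × ℝ | ∀ i, |p.2| * Γ i ≤ |y| * p.1 i} = S ∪ S' := by
    have hy' : 0 < |y| := abs_pos.mpr hy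
    ext p
    have key : ∀ i, (|p.2| * Γ i ≤ |y| * p.1 i ↔ |p.2| / |y| * Γ i ≤ p.1 i) := by
      intro i
      rw [div_mul_eq_mul_div, div_le_iff₀ hy', mul_comm (p.1 i)]
    rw [Set.mem_ofPred_eq, Set.mem_union, hS, hS', Set.mem_ofPred_eq, Set.mem_ofPred_eq]
    simp only [key]
    rw [← abs_div]
    constructor
    · intro h
      rcases le_total 0 (p.2 / y) with h0 | h0
      · left
        rw [abs_of_nonneg h0] at h
        exact ⟨h0, h⟩
      · right
        rw [abs_of_nonpos h0] at h
        rw [neg_div]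
        exact ⟨by linarith, h⟩
    · rintro (⟨h0, h⟩ | ⟨h0, h⟩)
      · rw [abs_of_nonneg h0]; exact h
      · rw [neg_div] at h0 h
        rw [abs_of_nonpos (by linarith)]
        exact h
  have h4 : (rho π).real (S ∩ S') = 0 := by
    have h5 : S ∩ S' ⊆ (univ : Set (ι → ℝ)) ×ˢ ({0} : Set ℝ) := by
      rintro p ⟨hp1, hp2⟩
      refine ⟨Set.mem_univ _, ?_⟩
      have h6 : 0 ≤ p.2 / y := hp1.1
      have h7 : 0 ≤ (-p.2) / y := hp2.1
      rw [neg_div] at h7
      have h8 : p.2 / y = 0 := by linarith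
      rcases div_eq_zero_iff.mp h8 with h9 | h9
      · exact h9
      · exact absurd h9 hy
    have h6 : (rho π) ((univ : Set (ι → ℝ)) ×ˢ ({0} : Set ℝ)) = 0 := by
      unfold rho
      rw [Measure.prod_prod]
      have : NullSingletonClass (gaussianReal 0 1) :=
        nullSingletonClass_gaussianReal one_ne_zero
      rw [measure_singleton, mul_zero]
    unfold Measure.real
    rw [measure_mono_null h5 h6]
    rfl
  unfold AA
  rw [h3]
  have h5 := measureReal_union_add_inter (μ := rho π) (s := S) (t := S') hS'm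
  rw [h4, h1] at h5
  linarith

/-- twice the Gaussian mass of the cone spanned by `v` and `g`. -/
theorem two_mass_eq (g : EE (n + 1)) (hg : fr.Y g ≠ 0) :
    2 * (stdGaussian (EE (n + 1))).real (posHull (Fin.snoc v g : Fin (n + 1) → EE (n + 1))) =
      AA (piv fr) (fr.W g) (fr.Y g) := by
  rw [AA_eq_two _ _ _ hg, ← joint_law]
  congr 1
  have hm : MeasurableSet {p : (Fin n → ℝ) × ℝ |
      0 ≤ p.2 / fr.Y g ∧ ∀ i, p.2 / fr.Y g * fr.W g i ≤ p.1 i} := by
    have : {p : (Fin n → ℝ) × ℝ | 0 ≤ p.2 / fr.Y g ∧ ∀ i, p.2 / fr.Y g * fr.W g i ≤ p.1 i} =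
        {p : (Fin n → ℝ) × ℝ | 0 ≤ p.2 / fr.Y g} ∩
          ⋂ i, {p | p.2 / fr.Y g * fr.W g i ≤ p.1 i} := by
      ext; simp
    rw [this]
    exact (measurableSet_le (by fun_prop) (by fun_prop)).inter
      (MeasurableSet.iInter fun i => measurableSet_le (by fun_prop) (by fun_prop))
  have hf : Measurable (fun x : EE (n + 1) => (fr.W x, fr.Y x)) :=
    (fr.W.continuous.prodMk fr.Y.continuous).measurable
  unfold Measure.real
  rw [Measure.map_apply hf hm]
  congr 2
  ext x
  exact mem_hull_iff fr g hg x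

theorem ae_Y_ne : ∀ᵐ g ∂(stdGaussian (EE (n + 1))), fr.Y g ≠ 0 := by
  have h1 : (stdGaussian (EE (n + 1))).map fr.Y = gaussianReal 0 1 := map_norm_one _ (norm_Y fr)
  have h2 : (stdGaussian (EE (n + 1))).map fr.Y {0} = 0 := by
    rw [h1]
    have : NullSingletonClass (gaussianReal 0 1) :=
      nullSingletonClass_gaussianReal one_ne_zero
    exact measure_singleton 0
  rw [Measure.map_apply fr.Y.continuous.measurable (measurableSet_singleton 0)] at h2
  rw [ae_iff]
  simp only [not_not]
  exact h2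

/-- The inner expectation in terms of `Q`. -/
theorem inner_eq_Q (d : ℕ) :
    (d : ℝ≥0∞) * ∫⁻ g, ENNReal.ofReal ((2 * (stdGaussian (EE (n + 1))).real
      (posHull (Fin.snoc v g : Fin (n + 1) → EE (n + 1)))) ^ d) ∂(stdGaussian (EE (n + 1))) =
      Q (piv fr) d := by
  unfold Q
  congr 1
  have hA : Measurable (fun q : (Fin n → ℝ) × ℝ => ENNReal.ofReal (AA (piv fr) q.1 q.2 ^ d)) :=
    ((measurable_AA (piv fr)).pow_const d).ennreal_ofReal
  have hf : Measurable (fun x : EE (n + 1) => (fr.W x, fr.Y x)) :=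
    (fr.W.continuous.prodMk fr.Y.continuous).measurable
  rw [← joint_law, lintegral_map hA hf]
  apply lintegral_congr_ae
  filter_upwards [ae_Y_ne fr] with g hg
  rw [two_mass_eq fr g hg]

end Pool.Agent.Lib.MP_da621d_pr
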