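import Mathlib
import Pool.Agent.Lib.MP_da621d_pr.Decomp2

namespace Pool.Agent.Lib.MP_da621d_pr

open MeasureTheory ProbabilityTheory Set Filter Matrix
open scoped ENNReal NNReal Topology

/-- measurable version of the mass of the cone -/
noncomputable def alp {d : ℕ} (G : Fin d → Fin d → ℝ) : ℝ≥0∞ :=
  gam (Fin d) {x | ∀ j, 0 ≤ (x ᵥ* (Matrix.of G)⁻¹) j}

theorem alp_eq {d : ℕ} (G : Fin d → Fin d → ℝ) (hG : dt G ≠ 0) :
    alp G = gam (Fin d) (posHull G) := by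
  unfold alp
  rw [posHull_eq G hG]

theorem measurable_inv_entry {d : ℕ} (i j : Fin d) :
    Measurable (fun G : Fin d → Fin d → ℝ => (Matrix.of G)⁻¹ i j) := by
  have h1 : (fun G : Fin d → Fin d → ℝ => (Matrix.of G)⁻¹ i j) =
      fun G => (dt G)⁻¹ * (Matrix.adjugate (Matrix.of G)) i j := by
    ext G
    rw [Matrix.inv_def, Ring.inverse_eq_inv']
    rfl
  rw [h1]
  apply Measurable.mul measurable_dt.inv
  apply Continuous.measurable
  have h2 : Continuous (fun G : Fin d → Fin d → ℝ => Matrix.adjugate (Matrix.of G)) :=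
    Continuous.matrix_adjugate continuous_id
  exact h2.matrix_elem i j

theorem measurable_alp {d : ℕ} : Measurable (alp (d := d)) := by
  unfold alp
  have hS : MeasurableSet {p : (Fin d → Fin d → ℝ) × (Fin d → ℝ) |
      ∀ j, 0 ≤ (p.2 ᵥ* (Matrix.of p.1)⁻¹) j} := by
    have : {p : (Fin d → Fin d → ℝ) × (Fin d → ℝ) | ∀ j, 0 ≤ (p.2 ᵥ* (Matrix.of p.1)⁻¹) j} =
        ⋂ j, {p | 0 ≤ (p.2 ᵥ* (Matrix.of p.1)⁻¹) j} := by ext; simp
    rw [this]
    refine MeasurableSet.iInter fun j => measurableSet_le measurable_const ?_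
    unfold Matrix.vecMul dotProduct
    apply Finset.measurable_sum
    intro l _
    apply Measurable.mul
    · fun_prop
    · exact (measurable_inv_entry l j).comp measurable_fst
  exact measurable_measure_prodMk_left hS

theorem mom_eq_alp (d k : ℕ) : mom d k = ∫⁻ G, alp G ^ k ∂(gam2 (Fin d) (Fin d)) := by
  unfold mom
  apply lintegral_congr_ae
  filter_upwards [ae_dt_ne_zero d] with G hG
  rw [alp_eq G hG]

theorem std_posHull {m : ℕ} (G : Fin m → Fin m → ℝ) :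
    stdGaussian (EE m) (posHull (fun i => WithLp.toLp 2 (G i) : Fin m → EE m)) =
      gam (Fin m) (posHull G) := by
  rw [← map_toLp_gam]
  have h1 : (WithLp.toLp 2 : (Fin m → ℝ) → EE m) = ⇑(MeasurableEquiv.toLp 2 (Fin m → ℝ)) := rfl
  rw [h1, MeasurableEquiv.map_apply]
  congr 1
  ext x
  rw [Set.mem_preimage]
  constructor
  · rintro ⟨c, hc, hx⟩
    refine ⟨c, hc, ?_⟩
    have h2 : (MeasurableEquiv.toLp 2 (Fin m → ℝ)) x =
        WithLp.toLp 2 (∑ i, c i • G i) := by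
      rw [hx]
      simp [WithLp.toLp_sum, WithLp.toLp_smul]
    exact (MeasurableEquiv.toLp 2 (Fin m → ℝ)).injective h2
  · rintro ⟨c, hc, hx⟩
    refine ⟨c, hc, ?_⟩
    rw [hx]
    simp [WithLp.toLp_sum, WithLp.toLp_smul]

theorem lintegral_snoc {n m : ℕ} (F : (Fin (n + 1) → Fin m → ℝ) → ℝ≥0∞) (hF : Measurable F) :
    ∫⁻ G, F G ∂(gam2 (Fin (n + 1)) (Fin m)) =
      ∫⁻ v, ∫⁻ g, F (Fin.snoc v g) ∂(gam (Fin m)) ∂(gam2 (Fin n) (Fin m)) := by
  unfold gam2
  have h := measurePreserving_piFinSuccAbove (fun _ : Fin (n + 1) => gam (Fin m)) (Fin.last n)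
  have h2 := h.symm
  have hsn : ∀ p : (Fin m → ℝ) × (Fin n → Fin m → ℝ),
      (MeasurableEquiv.piFinSuccAbove (fun _ : Fin (n + 1) => Fin m → ℝ) (Fin.last n)).symm p =
        Fin.snoc p.2 p.1 := by
    intro p
    exact Fin.insertNth_last' _ _
  rw [← h2.lintegral_comp hF]
  have hm : Measurable (fun p : (Fin m → ℝ) × (Fin n → Fin m → ℝ) =>
      F ((MeasurableEquiv.piFinSuccAbove (fun _ : Fin (n + 1) => Fin m → ℝ)
        (Fin.last n)).symm p)) := hF.comp (MeasurableEquiv.measurable _)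
  rw [lintegral_prod_symm _ hm.aemeasurable]
  simp only [hsn]

theorem measurable_snoc {n m : ℕ} : Measurable (fun p : (Fin n → Fin m → ℝ) × (Fin m → ℝ) =>
    (Fin.snoc p.1 p.2 : Fin (n + 1) → Fin m → ℝ)) := by
  apply measurable_pi_lambda
  intro i
  refine Fin.lastCases ?_ (fun i => ?_) i
  · simp only [Fin.snoc_last]; exact measurable_snd
  · simp only [Fin.snoc_castSucc]
    exact (measurable_pi_apply i).comp measurable_fst

/-- inner function -/
noncomputable def Hd (n d : ℕ) (v : Fin n → Fin (n + 1) → ℝ) : ℝ≥0∞ :=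
  (d : ℝ≥0∞) * ∫⁻ g, (2 * alp (Fin.snoc v g : Fin (n + 1) → Fin (n + 1) → ℝ)) ^ d
    ∂(gam (Fin (n + 1)))

theorem measurable_Hd (n d : ℕ) : Measurable (Hd n d) := by
  unfold Hd
  apply Measurable.const_mul
  apply Measurable.lintegral_prod_right'
    (f := fun p : (Fin n → Fin (n + 1) → ℝ) × (Fin (n + 1) → ℝ) =>
      (2 * alp (Fin.snoc p.1 p.2 : Fin (n + 1) → Fin (n + 1) → ℝ)) ^ d)
  exact ((measurable_alp.comp measurable_snoc).const_mul 2).pow_const d

theorem mom_eq_Hd (n d : ℕ) : 2 ^ d * d * mom (n + 1) d =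
    ∫⁻ v, Hd n d v ∂(gam2 (Fin n) (Fin (n + 1))) := by
  rw [mom_eq_alp, lintegral_snoc _ (measurable_alp.pow_const d)]
  unfold Hd
  rw [mul_comm (2 ^ d : ℝ≥0∞), mul_assoc]
  have h1 : ∀ v : Fin n → Fin (n + 1) → ℝ,
      ∫⁻ g, (2 * alp (Fin.snoc v g : Fin (n + 1) → Fin (n + 1) → ℝ)) ^ d
        ∂(gam (Fin (n + 1))) =
      2 ^ d * ∫⁻ g, alp (Fin.snoc v g : Fin (n + 1) → Fin (n + 1) → ℝ) ^ d
        ∂(gam (Fin (n + 1))) := by
    intro v
    rw [← lintegral_const_mul' _ _ (by simp)]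
    simp only [mul_pow]
  simp only [h1]
  rw [lintegral_const_mul' _ _ (by simp), lintegral_const_mul' _ _ (by simp)]

theorem ae_ae_dt (n : ℕ) : ∀ᵐ v ∂(gam2 (Fin n) (Fin (n + 1))), ∀ᵐ g ∂(gam (Fin (n + 1))),
    dt (Fin.snoc v g : Fin (n + 1) → Fin (n + 1) → ℝ) ≠ 0 := by
  have h1 := ae_dt_ne_zero (n + 1)
  rw [ae_iff] at h1
  simp only [not_not] at h1
  have hS : MeasurableSet {G : Fin (n + 1) → Fin (n + 1) → ℝ | dt G = 0} :=
    measurable_dt (measurableSet_singleton 0)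
  have h2 : ∫⁻ G, ({G : Fin (n + 1) → Fin (n + 1) → ℝ | dt G = 0}.indicator 1 G : ℝ≥0∞)
      ∂(gam2 (Fin (n + 1)) (Fin (n + 1))) = 0 := by
    rw [lintegral_indicator_one hS]
    exact h1
  rw [lintegral_snoc _ (measurable_one.indicator hS)] at h2
  have hm : Measurable (fun v : Fin n → Fin (n + 1) → ℝ => ∫⁻ g,
      ({G : Fin (n + 1) → Fin (n + 1) → ℝ | dt G = 0}.indicator 1 (Fin.snoc v g) : ℝ≥0∞)
      ∂(gam (Fin (n + 1)))) := by
    apply Measurable.lintegral_prod_right'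
      (f := fun p : (Fin n → Fin (n + 1) → ℝ) × (Fin (n + 1) → ℝ) =>
        ({G : Fin (n + 1) → Fin (n + 1) → ℝ | dt G = 0}.indicator 1
          (Fin.snoc p.1 p.2) : ℝ≥0∞))
    exact (measurable_one.indicator hS).comp measurable_snoc
  rw [lintegral_eq_zero_iff hm] at h2
  filter_upwards [h2] with v hv
  have hm2 : Measurable (fun g : Fin (n + 1) → ℝ =>
      ({G : Fin (n + 1) → Fin (n + 1) → ℝ | dt G = 0}.indicator 1 (Fin.snoc v g) : ℝ≥0∞)) := by
    have h3 := (measurable_one.indicator hS : Measurable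
      ({G : Fin (n + 1) → Fin (n + 1) → ℝ | dt G = 0}.indicator
        (1 : (Fin (n + 1) → Fin (n + 1) → ℝ) → ℝ≥0∞))).comp
      (measurable_snoc (n := n) (m := n + 1))
    have h4 : Measurable (fun g : Fin (n + 1) → ℝ => ((v, g) :
      (Fin n → Fin (n + 1) → ℝ) × (Fin (n + 1) → ℝ))) := by fun_prop
    exact h3.comp h4
  have hv' : ∫⁻ g, ({G : Fin (n + 1) → Fin (n + 1) → ℝ | dt G = 0}.indicator 1
      (Fin.snoc v g) : ℝ≥0∞) ∂(gam (Fin (n + 1))) = 0 := hv
  rw [lintegral_eq_zero_iff hm2] at hv'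
  filter_upwards [hv'] with g hg
  intro hdt
  have h5 : ({G : Fin (n + 1) → Fin (n + 1) → ℝ | dt G = 0}.indicator 1
      (Fin.snoc v g) : ℝ≥0∞) = 0 := hg
  rw [Set.indicator_of_mem (show (Fin.snoc v g : Fin (n + 1) → Fin (n + 1) → ℝ) ∈
    {G : Fin (n + 1) → Fin (n + 1) → ℝ | dt G = 0} from hdt)] at h5
  exact one_ne_zero h5

theorem exists_frame_of_ae (n : ℕ) (v : Fin n → Fin (n + 1) → ℝ)
    (hv : ∀ᵐ g ∂(gam (Fin (n + 1))),
      dt (Fin.snoc v g : Fin (n + 1) → Fin (n + 1) → ℝ) ≠ 0) :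
    Nonempty (Frame n (EE (n + 1)) (fun i => WithLp.toLp 2 (v i))) := by
  apply exists_frame
  · simp
  · obtain ⟨g, hg⟩ := hv.exists
    have h1 : LinearIndependent ℝ (Fin.snoc v g : Fin (n + 1) → Fin (n + 1) → ℝ) :=
      Matrix.linearIndependent_rows_of_det_ne_zero hg
    rw [linearIndependent_finSnoc] at h1
    have h2 := h1.1
    have h3 := h2.map' ((WithLp.linearEquiv 2 ℝ (Fin (n + 1) → ℝ)).symm.toLinearMap)
      (LinearEquiv.ker _)
    exact h3

theorem Hd_eq_Q (n d : ℕ) [Nonempty (Fin n)] (v : Fin n → Fin (n + 1) → ℝ)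
    (hv : ∀ᵐ g ∂(gam (Fin (n + 1))),
      dt (Fin.snoc v g : Fin (n + 1) → Fin (n + 1) → ℝ) ≠ 0)
    (fr : Frame n (EE (n + 1)) (fun i => WithLp.toLp 2 (v i))) :
    Hd n d v = Q (piv fr) d := by
  have h3 : ∀ f : EE (n + 1) → ℝ≥0∞, ∫⁻ x, f x ∂(stdGaussian (EE (n + 1))) =
      ∫⁻ g, f (WithLp.toLp 2 g) ∂(gam (Fin (n + 1))) := by
    intro f
    rw [← map_toLp_gam]
    exact lintegral_map_equiv f (MeasurableEquiv.toLp 2 (Fin (n + 1) → ℝ))
  rw [← inner_eq_Q fr d, h3]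
  unfold Hd
  congr 1
  apply lintegral_congr_ae
  filter_upwards [hv] with g hg
  have h2 : (Fin.snoc (fun i => WithLp.toLp 2 (v i)) (WithLp.toLp 2 g) :
      Fin (n + 1) → EE (n + 1)) =
      fun i => WithLp.toLp 2 ((Fin.snoc v g : Fin (n + 1) → Fin (n + 1) → ℝ) i) := by
    ext i
    refine Fin.lastCases ?_ (fun i => ?_) i
    · simp
    · simp
  rw [h2, Measure.real, std_posHull, ← alp_eq _ hg,
    ENNReal.ofReal_pow (by positivity), ENNReal.ofReal_mul (by norm_num), ENNReal.ofReal_toReal]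
  · simp
  · unfold alp
    exact measure_ne_top _ _

/-- the limit function -/
noncomputable def Linf (n : ℕ) [Nonempty (Fin n)] (v : Fin n → Fin (n + 1) → ℝ) : ℝ≥0∞ := by
  classical
  exact if h : Nonempty (Frame n (EE (n + 1)) (fun i => WithLp.toLp 2 (v i))) then
    Qinf (piv h.some) else 0

/-- **Moment limits**: `2^d d m(d,k)` converges to a positive finite limit for every `k ≥ 2`. -/
theorem tendsto_mom (n : ℕ) (hn : 0 < n) :
    ∃ c : ℝ≥0∞, c ≠ 0 ∧ c ≠ ⊤ ∧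
      Tendsto (fun d : ℕ => 2 ^ d * (d : ℝ≥0∞) * mom d (n + 1)) atTop (𝓝 c) := by
  have : Nonempty (Fin n) := ⟨⟨0, hn⟩⟩
  have hlim : ∀ᵐ v ∂(gam2 (Fin n) (Fin (n + 1))),
      Tendsto (fun d => Hd n d v) atTop (𝓝 (Linf n v)) := by
    filter_upwards [ae_ae_dt n] with v hv
    have hfr := exists_frame_of_ae n v hv
    have h1 : ∀ d, Hd n d v = Q (piv hfr.some) d := fun d => Hd_eq_Q n d v hv hfr.some
    simp only [h1]
    unfold Linf
    rw [dif_pos hfr]
    exact tendsto_Q (piv hfr.some) (piv_marg hfr.some)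
  have hbd : ∀ d, (fun v => Hd n d v) ≤ᵐ[gam2 (Fin n) (Fin (n + 1))] fun _ => K3 := by
    intro d
    filter_upwards [ae_ae_dt n] with v hv
    have hfr := exists_frame_of_ae n v hv
    rw [Hd_eq_Q n d v hv hfr.some]
    exact Q_le (piv hfr.some) (piv_marg hfr.some) d
  have hfin : ∫⁻ _v, K3 ∂(gam2 (Fin n) (Fin (n + 1))) ≠ ⊤ := by
    simp only [lintegral_const, measure_univ, mul_one]
    exact K3_lt_top.ne
  have hconv := tendsto_lintegral_of_dominated_convergence (fun _ => K3)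
    (fun d => measurable_Hd n d) hbd hfin hlim
  refine ⟨∫⁻ v, Linf n v ∂(gam2 (Fin n) (Fin (n + 1))), ?_, ?_, ?_⟩
  · have hmeas : AEMeasurable (Linf n) (gam2 (Fin n) (Fin (n + 1))) :=
      aemeasurable_of_tendsto_metrizable_ae atTop
        (fun d => (measurable_Hd n d).aemeasurable) hlim
    intro h0
    rw [lintegral_eq_zero_iff' hmeas] at h0
    obtain ⟨v, hv⟩ := (h0.and (ae_ae_dt n)).exists
    have hfr := exists_frame_of_ae n v hv.2
    have h1 : Linf n v = 0 := hv.1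
    unfold Linf at h1
    rw [dif_pos hfr] at h1
    exact Qinf_pos _ (piv_neg hfr.some) h1
  · have hle : ∀ᵐ v ∂(gam2 (Fin n) (Fin (n + 1))), Linf n v ≤ K3 := by
      filter_upwards [hlim, ae_all_iff.mpr hbd] with v hv hb
      exact le_of_tendsto' hv hb
    exact ((lintegral_mono_ae hle).trans_lt (lt_top_iff_ne_top.mpr hfin)).ne
  · refine hconv.congr fun d => ?_
    rw [← mom_eq_Hd, mom_symm]

end Pool.Agent.Lib.MP_da621d_pr
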