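import Mathlib
import Pool.Agent.Lib.MP_da621d_pr.Moments

namespace Pool.Agent.Lib.MP_da621d_pr

open MeasureTheory ProbabilityTheory Set Filter Matrix
open scoped ENNReal NNReal Topology

/-- radial Gaussian density -/
noncomputable def gdens (m : ℕ) (r : ℝ) : ℝ≥0∞ :=
  ENNReal.ofReal (c0 ^ m * Real.exp (-(r ^ 2) / 2))

theorem measurable_gdens (m : ℕ) : Measurable (gdens m) := by
  unfold gdens; fun_prop

theorem lintegral_std (m : ℕ) (F : EE m → ℝ≥0∞) (hF : Measurable F) :
    ∫⁻ x, F x ∂(stdGaussian (EE m)) = ∫⁻ x, gdens m ‖x‖ * F x := by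
  have hF2 : Measurable (fun a : Fin m → ℝ => F (WithLp.toLp 2 a)) := hF.comp (by fun_prop)
  rw [← map_toLp_gam, lintegral_map hF (by fun_prop), gam_eq,
    lintegral_withDensity_eq_lintegral_mul _ measurable_phi.ennreal_ofReal hF2]
  have hm2 : Measurable (fun x : EE m => gdens m ‖x‖ * F x) :=
    ((measurable_gdens m).comp measurable_norm).mul hF
  rw [← (PiLp.volume_preserving_toLp (Fin m)).lintegral_comp hm2]
  apply lintegral_congr
  intro x
  simp only [Pi.mul_apply]
  congr 1
  rw [gdens, phi_eq, EuclideanSpace.norm_eq, Real.sq_sqrt (by positivity)]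
  simp

/-- uniform distribution on the unit sphere -/
noncomputable def sphUnif (m : ℕ) : Measure (EE m) :=
  (((volume : Measure (EE m)).toSphere univ)⁻¹ • (volume : Measure (EE m)).toSphere).map
    Subtype.val

theorem measurable_normalize (m : ℕ) : Measurable (fun x : EE m => ‖x‖⁻¹ • x) := by
  fun_prop

theorem lintegral_polar (m : ℕ) (F : EE (m + 1) → ℝ≥0∞) (hF : Measurable F) :
    ∫⁻ x, F x = ∫⁻ p : Metric.sphere (0 : EE (m + 1)) 1 × Ioi (0:ℝ), F (p.2.1 • p.1.1)
      ∂((volume : Measure (EE (m + 1))).toSphere.prod (Measure.volumeIoiPow m)) := by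
  have h := (volume : Measure (EE (m + 1))).measurePreserving_homeomorphUnitSphereProd
  simp only [finrank_euclideanSpace, Fintype.card_fin, Nat.add_sub_cancel] at h
  have hm : Measurable (fun p : Metric.sphere (0 : EE (m + 1)) 1 × Ioi (0:ℝ) =>
      F (p.2.1 • p.1.1)) := by
    apply hF.comp
    fun_prop
  rw [← h.lintegral_comp hm]
  have h2 : ∀ x : ({0}ᶜ : Set (EE (m + 1))),
      F ((homeomorphUnitSphereProd (EE (m + 1)) x).2.1 •
        (homeomorphUnitSphereProd (EE (m + 1)) x).1.1) = F x.1 := by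
    intro x
    congr 1
    have := (homeomorphUnitSphereProd (EE (m + 1))).symm_apply_apply x
    have h3 := congrArg Subtype.val this
    rw [← h3]
    rfl
  simp only [h2]
  rw [lintegral_subtype_comap (measurableSet_singleton _).compl, restrict_compl_singleton]

theorem sph_univ_ne_zero (m : ℕ) : (volume : Measure (EE (m + 1))).toSphere univ ≠ 0 := by
  intro h
  have : (volume : Measure (EE (m + 1))).toSphere ≠ 0 := Measure.toSphere_ne_zero _
  exact this (Measure.measure_univ_eq_zero.mp h)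

/-- The direction of a standard Gaussian vector is uniformly distributed on the sphere. -/
theorem map_normalize (m : ℕ) :
    (stdGaussian (EE (m + 1))).map (fun x => ‖x‖⁻¹ • x) = sphUnif (m + 1) := by
  ext A hA
  have hval : Measurable (Subtype.val : Metric.sphere (0 : EE (m + 1)) 1 → EE (m + 1)) :=
    measurable_subtype_coe
  have key : ∀ A : Set (EE (m + 1)), MeasurableSet A →
      (stdGaussian (EE (m + 1))).map (fun x => ‖x‖⁻¹ • x) A =
        (∫⁻ r, gdens (m + 1) r.1 ∂(Measure.volumeIoiPow m)) *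
          (volume : Measure (EE (m + 1))).toSphere (Subtype.val ⁻¹' A) := by
    intro A hA
    rw [Measure.map_apply (measurable_normalize _) hA,
      ← lintegral_indicator_one (measurable_normalize _ hA)]
    have hm1 : Measurable ((fun x : EE (m + 1) => ‖x‖⁻¹ • x) ⁻¹' A |>.indicator
        (1 : EE (m + 1) → ℝ≥0∞)) := measurable_one.indicator (measurable_normalize _ hA)
    have hm2 : Measurable (fun x : EE (m + 1) => gdens (m + 1) ‖x‖ *
        ((fun x : EE (m + 1) => ‖x‖⁻¹ • x) ⁻¹' A).indicator (1 : EE (m + 1) → ℝ≥0∞) x) :=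
      ((measurable_gdens _).comp measurable_norm).mul hm1
    rw [lintegral_std _ _ hm1, lintegral_polar _ _ hm2]
    have h1 : ∀ p : Metric.sphere (0 : EE (m + 1)) 1 × Ioi (0:ℝ),
        gdens (m + 1) ‖p.2.1 • p.1.1‖ * ((fun x : EE (m + 1) => ‖x‖⁻¹ • x) ⁻¹' A).indicator
          (1 : EE (m + 1) → ℝ≥0∞) (p.2.1 • p.1.1) =
        (Subtype.val ⁻¹' A).indicator (1 : Metric.sphere (0 : EE (m + 1)) 1 → ℝ≥0∞) p.1 *
          gdens (m + 1) p.2.1 := by
      intro p
      have hr : 0 < p.2.1 := p.2.2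
      have hn : ‖p.1.1‖ = 1 := by
        have := p.1.2
        rwa [mem_sphere_zero_iff_norm] at this
      have h2 : ‖p.2.1 • p.1.1‖ = p.2.1 := by
        rw [norm_smul, hn, mul_one, Real.norm_eq_abs, abs_of_pos hr]
      have h3 : ‖p.2.1 • p.1.1‖⁻¹ • (p.2.1 • p.1.1) = p.1.1 := by
        rw [h2, smul_smul, inv_mul_cancel₀ hr.ne', one_smul]
      rw [h2, mul_comm]
      congr 1
      have h4 : (p.2.1 • p.1.1 ∈ (fun x : EE (m + 1) => ‖x‖⁻¹ • x) ⁻¹' A) ↔
          p.1 ∈ Subtype.val ⁻¹' A := by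
        rw [mem_preimage, mem_preimage, h3]
      by_cases hp : p.1 ∈ Subtype.val ⁻¹' A
      · rw [indicator_of_mem hp, indicator_of_mem (h4.mpr hp)]
        rfl
      · rw [indicator_of_notMem hp, indicator_of_notMem (fun h => hp (h4.mp h))]
    simp only [h1]
    rw [lintegral_prod_mul (μ := (volume : Measure (EE (m + 1))).toSphere)
      (ν := Measure.volumeIoiPow m)
      (f := (Subtype.val ⁻¹' A).indicator (1 : Metric.sphere (0 : EE (m + 1)) 1 → ℝ≥0∞))
      (g := fun r : Ioi (0:ℝ) => gdens (m + 1) r.1)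
      (measurable_one.indicator (hval hA)).aemeasurable
      ((measurable_gdens _).comp measurable_subtype_coe).aemeasurable]
    rw [mul_comm, lintegral_indicator_one (hval hA)]
  have h1 := key univ MeasurableSet.univ
  rw [Measure.map_apply (measurable_normalize _) MeasurableSet.univ, preimage_univ, measure_univ,
    preimage_univ] at h1
  rw [key A hA, sphUnif, Measure.map_apply hval hA, Measure.smul_apply, smul_eq_mul]
  congr 1
  exact ENNReal.eq_inv_of_mul_eq_one_left h1.symm

instance (m : ℕ) : IsProbabilityMeasure (sphUnif (m + 1)) := by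
  rw [← map_normalize]
  exact Measure.isProbabilityMeasure_map (measurable_normalize _).aemeasurable

/-- entries of an array of Euclidean vectors -/
def ofE {m : ℕ} (u : Fin m → EE m) : Fin m → Fin m → ℝ := fun i j => u i j

theorem measurable_ofE {m : ℕ} : Measurable (ofE (m := m)) := by
  unfold ofE
  fun_prop

theorem posHull_zero_mem {ι E : Type*} [Fintype ι] [AddCommMonoid E] [Module ℝ E] (x : ι → E) :
    (0 : E) ∈ posHull x := ⟨fun _ => 0, fun _ => le_rfl, by simp⟩

theorem posHull_smul_mem {ι E : Type*} [Fintype ι] [AddCommGroup E] [Module ℝ E] (x : ι → E)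
    {t : ℝ} (ht : 0 ≤ t) {v : E} (hv : v ∈ posHull x) : t • v ∈ posHull x := by
  obtain ⟨c, hc, rfl⟩ := hv
  refine ⟨fun i => t * c i, fun i => mul_nonneg ht (hc i), ?_⟩
  rw [Finset.smul_sum]
  simp [smul_smul]

theorem posHull_smul_sub {ι E : Type*} [Fintype ι] [AddCommGroup E] [Module ℝ E] (x : ι → E)
    (t : ι → ℝ) (ht : ∀ i, 0 ≤ t i) : posHull (fun i => t i • x i) ⊆ posHull x := by
  rintro _ ⟨c, hc, rfl⟩
  refine ⟨fun i => c i * t i, fun i => mul_nonneg (hc i) (ht i), ?_⟩
  simp [smul_smul]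

theorem posHull_smul {ι E : Type*} [Fintype ι] [AddCommGroup E] [Module ℝ E] (x : ι → E)
    (t : ι → ℝ) (ht : ∀ i, 0 < t i) : posHull (fun i => t i • x i) = posHull x := by
  apply Subset.antisymm (posHull_smul_sub x t fun i => (ht i).le)
  have h := posHull_smul_sub (fun i => t i • x i) (fun i => (t i)⁻¹)
    (fun i => (inv_pos.mpr (ht i)).le)
  have h2 : (fun i => (t i)⁻¹ • t i • x i) = x := by
    ext i
    rw [smul_smul, inv_mul_cancel₀ (ht i).ne', one_smul]
  rwa [h2] at h

theorem posHull_ofE {m : ℕ} (u : Fin m → EE m) :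
    posHull u = (MeasurableEquiv.toLp 2 (Fin m → ℝ)).symm ⁻¹' (posHull (ofE u)) := by
  ext x
  rw [mem_preimage]
  constructor
  · rintro ⟨c, hc, hx⟩
    refine ⟨c, hc, ?_⟩
    ext j
    show x j = _
    rw [hx]
    simp [ofE]
  · rintro ⟨c, hc, hx⟩
    refine ⟨c, hc, ?_⟩
    ext j
    have h2 : x j = (∑ i, c i • ofE u i) j := congrFun hx j
    rw [h2]
    simp [ofE]

theorem measurableSet_posHull_E {m : ℕ} (u : Fin m → EE m) (hu : dt (ofE u) ≠ 0) :
    MeasurableSet (posHull u) := by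
  rw [posHull_ofE]
  exact (MeasurableEquiv.toLp 2 (Fin m → ℝ)).symm.measurable (measurableSet_posHull _ hu)

/-- the solid angle computed with Gaussian mass -/
theorem sphUnif_posHull {m : ℕ} (u : Fin (m + 1) → EE (m + 1)) (hu : dt (ofE u) ≠ 0) :
    sphUnif (m + 1) (posHull u) = alp (ofE u) := by
  rw [← map_normalize, Measure.map_apply (measurable_normalize _) (measurableSet_posHull_E u hu)]
  have h1 : (fun x : EE (m + 1) => ‖x‖⁻¹ • x) ⁻¹' (posHull u) = posHull u := by
    ext x
    rw [mem_preimage]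
    constructor
    · intro h
      by_cases hx : x = 0
      · rw [hx]; exact posHull_zero_mem u
      · have h2 := posHull_smul_mem u (norm_nonneg x) h
        rwa [smul_smul, mul_inv_cancel₀ (norm_ne_zero_iff.mpr hx), one_smul] at h2
    · intro h
      exact posHull_smul_mem u (by positivity) h
  rw [h1, alp_eq _ hu, ← std_posHull]
  rfl

/-- law of the solid angle of the random cone -/
noncomputable def alphaLaw (d : ℕ) : Measure ℝ :=
  (Measure.pi (fun _ : Fin d => sphUnif d)).map (fun u => (sphUnif d).real (posHull u))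

/-- normalised Gaussian array -/
noncomputable def TN {m : ℕ} (G : Fin m → Fin m → ℝ) : Fin m → EE m :=
  fun i => ‖(WithLp.toLp 2 (G i) : EE m)‖⁻¹ • (WithLp.toLp 2 (G i) : EE m)

theorem measurable_TN {m : ℕ} : Measurable (TN (m := m)) := by
  unfold TN
  apply measurable_pi_lambda
  intro i
  have h1 : Measurable (fun G : Fin m → Fin m → ℝ => (WithLp.toLp 2 (G i) : EE m)) := by
    fun_prop
  exact (measurable_normalize m).comp h1

theorem pi_sphUnif (m : ℕ) : Measure.pi (fun _ : Fin (m + 1) => sphUnif (m + 1)) =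
    (gam2 (Fin (m + 1)) (Fin (m + 1))).map TN := by
  have h1 : (gam (Fin (m + 1))).map
      (fun g => ‖(WithLp.toLp 2 g : EE (m + 1))‖⁻¹ • (WithLp.toLp 2 g : EE (m + 1))) =
      sphUnif (m + 1) := by
    rw [← map_normalize, ← map_toLp_gam, Measure.map_map (measurable_normalize _) (by fun_prop)]
    rfl
  have hm : Measurable (fun g : Fin (m + 1) → ℝ =>
      ‖(WithLp.toLp 2 g : EE (m + 1))‖⁻¹ • (WithLp.toLp 2 g : EE (m + 1))) :=
    (measurable_normalize (m + 1)).comp
      (by fun_prop : Measurable (fun g : Fin (m + 1) → ℝ => (WithLp.toLp 2 g : EE (m + 1))))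
  have : SigmaFinite ((gam (Fin (m + 1))).map
      (fun g => ‖(WithLp.toLp 2 g : EE (m + 1))‖⁻¹ • (WithLp.toLp 2 g : EE (m + 1)))) := by
    rw [h1]; infer_instance
  have h2 := Measure.pi_map_pi (ι := Fin (m + 1)) (μ := fun _ => gam (Fin (m + 1)))
    (f := fun _ => fun g => ‖(WithLp.toLp 2 g : EE (m + 1))‖⁻¹ •
      (WithLp.toLp 2 g : EE (m + 1))) (fun _ => hm.aemeasurable)
  rw [h1] at h2
  rw [← h2]
  rfl

theorem dt_TN {m : ℕ} (G : Fin m → Fin m → ℝ) (hG : dt G ≠ 0) :
    (∀ i, 0 < ‖(WithLp.toLp 2 (G i) : EE m)‖⁻¹) ∧ dt (ofE (TN G)) ≠ 0 := by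
  have h1 : ∀ i, 0 < ‖(WithLp.toLp 2 (G i) : EE m)‖⁻¹ := by
    intro i
    rw [inv_pos, norm_pos_iff]
    intro h0
    apply hG
    unfold dt
    apply Matrix.det_eq_zero_of_row_eq_zero i
    intro j
    have := congrArg (fun v : EE m => v j) h0
    simpa using this
  refine ⟨h1, ?_⟩
  have h2 : ofE (TN G) = fun i j => ‖(WithLp.toLp 2 (G i) : EE m)‖⁻¹ * G i j := by
    ext i j
    simp [ofE, TN]
  unfold dt
  rw [h2]
  have h3 := Matrix.det_mul_column (fun i => ‖(WithLp.toLp 2 (G i) : EE m)‖⁻¹) (Matrix.of G)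
  have h4 : (Matrix.of fun i j => ‖(WithLp.toLp 2 (G i) : EE m)‖⁻¹ * (Matrix.of G) i j) =
    Matrix.of (fun i j => ‖(WithLp.toLp 2 (G i) : EE m)‖⁻¹ * G i j) := rfl
  rw [h4] at h3
  rw [h3]
  exact mul_ne_zero (Finset.prod_ne_zero_iff.mpr fun i _ => (h1 i).ne') hG

theorem alp_TN {m : ℕ} (G : Fin m → Fin m → ℝ) (hG : dt G ≠ 0) :
    alp (ofE (TN G)) = alp G := by
  obtain ⟨h1, h2⟩ := dt_TN G hG
  rw [alp_eq _ h2, alp_eq _ hG]
  congr 1
  have h3 : ofE (TN G) = fun i => ‖(WithLp.toLp 2 (G i) : EE m)‖⁻¹ • G i := by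
    ext i j
    simp [ofE, TN]
  rw [h3]
  exact posHull_smul G _ h1

theorem ae_pi_sphUnif (m : ℕ) :
    ∀ᵐ u ∂(Measure.pi (fun _ : Fin (m + 1) => sphUnif (m + 1))), dt (ofE u) ≠ 0 := by
  rw [pi_sphUnif, ae_map_iff measurable_TN.aemeasurable]
  · filter_upwards [ae_dt_ne_zero (m + 1)] with G hG
    exact (dt_TN G hG).2
  · exact ((measurable_dt.comp measurable_ofE) (measurableSet_singleton 0)).compl

theorem solid_ae (m : ℕ) : (fun u : Fin (m + 1) → EE (m + 1) =>
    (sphUnif (m + 1)).real (posHull u)) =ᵐ[Measure.pi (fun _ : Fin (m + 1) => sphUnif (m + 1))]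
      (fun u => (alp (ofE u)).toReal) := by
  filter_upwards [ae_pi_sphUnif m] with u hu
  rw [Measure.real, sphUnif_posHull u hu]

theorem alphaLaw_eq (m : ℕ) : alphaLaw (m + 1) =
    (gam2 (Fin (m + 1)) (Fin (m + 1))).map (fun G => (alp G).toReal) := by
  unfold alphaLaw
  have hm : Measurable (fun u : Fin (m + 1) → EE (m + 1) => (alp (ofE u)).toReal) :=
    (measurable_alp.comp measurable_ofE).ennreal_toReal
  rw [Measure.map_congr (solid_ae m), pi_sphUnif, Measure.map_map hm measurable_TN]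
  apply Measure.map_congr
  filter_upwards [ae_dt_ne_zero (m + 1)] with G hG
  simp only [Function.comp]
  rw [alp_TN G hG]

theorem alp_le_one {m : ℕ} (G : Fin m → Fin m → ℝ) : alp G ≤ 1 := prob_le_one

theorem alphaLaw_prob (m : ℕ) : IsProbabilityMeasure (alphaLaw (m + 1)) := by
  rw [alphaLaw_eq]
  exact Measure.isProbabilityMeasure_map measurable_alp.ennreal_toReal.aemeasurable

theorem alphaLaw_supp (m : ℕ) : ∀ᵐ x ∂(alphaLaw (m + 1)), x ∈ Icc (0:ℝ) 1 := by
  have hS : MeasurableSet {x : ℝ | x ∈ Icc (0:ℝ) 1} := measurableSet_Icc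
  rw [alphaLaw_eq, ae_map_iff measurable_alp.ennreal_toReal.aemeasurable hS]
  refine ae_of_all _ fun G => ⟨ENNReal.toReal_nonneg, ?_⟩
  exact ENNReal.toReal_le_of_le_ofReal zero_le_one (by simpa using alp_le_one G)

theorem alphaLaw_moment (m k : ℕ) :
    ∫ x, x ^ k ∂(alphaLaw (m + 1)) = (mom (m + 1) k).toReal := by
  rw [alphaLaw_eq, integral_map measurable_alp.ennreal_toReal.aemeasurable
    (by fun_prop), mom_eq_alp, ← integral_toReal]
  · simp only [ENNReal.toReal_pow]
  · exact (measurable_alp.pow_const k).aemeasurable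
  · refine ae_of_all _ fun G => ?_
    exact ENNReal.pow_lt_top ((alp_le_one G).trans_lt ENNReal.one_lt_top)

end Pool.Agent.Lib.MP_da621d_pr
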