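import Mathlib

namespace Pool.Agent.Lib.MP_da621d_pr

open MeasureTheory Set Filter Topology
open scoped ENNReal NNReal CompactlySupported

/-- Hypotheses: probability measures on `[0,1]`, weights, and convergence of the weighted
moments of order at least two. -/
structure VData (ν : ℕ → Measure ℝ) (w : ℕ → ℝ) (c : ℕ → ℝ) : Prop where
  prob : ∀ d, IsFiniteMeasure (ν d)
  supp : ∀ d, ∀ᵐ x ∂(ν d), x ∈ Icc (0:ℝ) 1
  wpos : ∀ d, 0 ≤ w d
  lim : ∀ k, Tendsto (fun d => w d * ∫ x, x ^ (k + 2) ∂(ν d)) atTop (𝓝 (c k))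

section

variable {ν : ℕ → Measure ℝ} {w : ℕ → ℝ} {c : ℕ → ℝ}

/-- the weighted integral -/
noncomputable def Iw (ν : ℕ → Measure ℝ) (w : ℕ → ℝ) (d : ℕ) (h : ℝ → ℝ) : ℝ :=
  w d * ∫ x, h x * x ^ 2 ∂(ν d)

theorem integrable_vd (V : VData ν w c) (d : ℕ) {h : ℝ → ℝ} (hh : Continuous h) :
    Integrable h (ν d) := by
  have := V.prob d
  obtain ⟨C, hC⟩ := (isCompact_Icc (a := (0:ℝ)) (b := 1)).exists_bound_of_continuousOn
    hh.continuousOn
  refine Integrable.of_bound hh.aestronglyMeasurable C ?_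
  filter_upwards [V.supp d] with x hx
  exact hC x hx

theorem Iw_poly (V : VData ν w c) (p : Polynomial ℝ) :
    ∃ l, Tendsto (fun d => Iw ν w d (fun x => p.eval x)) atTop (𝓝 l) := by
  refine ⟨∑ i ∈ Finset.range (p.natDegree + 1), p.coeff i * c i, ?_⟩
  have h1 : ∀ d, Iw ν w d (fun x => p.eval x) =
      ∑ i ∈ Finset.range (p.natDegree + 1), p.coeff i * (w d * ∫ x, x ^ (i + 2) ∂(ν d)) := by
    intro d
    unfold Iw
    have h2 : ∀ x : ℝ, p.eval x * x ^ 2 =
        ∑ i ∈ Finset.range (p.natDegree + 1), p.coeff i * x ^ (i + 2) := by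
      intro x
      rw [Polynomial.eval_eq_sum_range, Finset.sum_mul]
      apply Finset.sum_congr rfl
      intro i _
      ring
    simp only [h2]
    rw [integral_finsetSum]
    · rw [Finset.mul_sum]
      apply Finset.sum_congr rfl
      intro i _
      rw [integral_const_mul]
      ring
    · intro i _
      exact integrable_vd V d (by fun_prop)
  simp only [h1]
  exact tendsto_finsetSum _ fun i _ => (V.lim i).const_mul _

theorem Iw_bdd (V : VData ν w c) : ∃ M : ℝ, 0 ≤ M ∧ ∀ d, w d * ∫ x, x ^ 2 ∂(ν d) ≤ M := by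
  have h := (V.lim 0).bddAbove_range
  obtain ⟨M, hM⟩ := h
  refine ⟨max M 0, le_max_right _ _, fun d => ?_⟩
  have := hM (mem_range_self d)
  simp only [zero_add] at this
  exact this.trans (le_max_left _ _)

theorem Iw_diff (V : VData ν w c) {M : ℝ} (hM : ∀ d, w d * ∫ x, x ^ 2 ∂(ν d) ≤ M)
    {h g : ℝ → ℝ} (hh : Continuous h) (hg : Continuous g) {δ : ℝ} (hδ : 0 ≤ δ)
    (hd : ∀ x ∈ Icc (0:ℝ) 1, |h x - g x| ≤ δ) (d : ℕ) :
    |Iw ν w d h - Iw ν w d g| ≤ δ * M := by
  have := V.prob d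
  unfold Iw
  rw [← mul_sub, ← integral_sub (integrable_vd V d (by fun_prop))
    (integrable_vd V d (by fun_prop)), abs_mul, abs_of_nonneg (V.wpos d)]
  have h1 : |∫ x, (h x * x ^ 2 - g x * x ^ 2) ∂(ν d)| ≤ ∫ x, δ * x ^ 2 ∂(ν d) := by
    rw [← Real.norm_eq_abs]
    apply norm_integral_le_of_norm_le (integrable_vd V d (by fun_prop))
    filter_upwards [V.supp d] with x hx
    rw [← sub_mul, norm_mul, Real.norm_eq_abs, Real.norm_eq_abs, abs_of_nonneg (sq_nonneg x)]
    exact mul_le_mul_of_nonneg_right (hd x hx) (sq_nonneg x)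
  rw [integral_const_mul] at h1
  calc w d * |∫ x, (h x * x ^ 2 - g x * x ^ 2) ∂(ν d)|
      ≤ w d * (δ * ∫ x, x ^ 2 ∂(ν d)) := mul_le_mul_of_nonneg_left h1 (V.wpos d)
    _ = δ * (w d * ∫ x, x ^ 2 ∂(ν d)) := by ring
    _ ≤ δ * M := mul_le_mul_of_nonneg_left (hM d) hδ

theorem Iw_cauchy (V : VData ν w c) {h : ℝ → ℝ} (hh : Continuous h) :
    ∃ l, Tendsto (fun d => Iw ν w d h) atTop (𝓝 l) := by
  apply cauchySeq_tendsto_of_complete
  obtain ⟨M, hM0, hM⟩ := Iw_bdd V
  rw [Metric.cauchySeq_iff']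
  intro ε hε
  set δ := ε / (4 * (M + 1)) with hδdef
  have hδ : 0 < δ := by positivity
  obtain ⟨p, hp⟩ := exists_polynomial_near_of_continuousOn 0 1 h hh.continuousOn δ hδ
  obtain ⟨l, hl⟩ := Iw_poly V p
  have hc := hl.cauchySeq
  rw [Metric.cauchySeq_iff'] at hc
  obtain ⟨N, hN⟩ := hc (ε / 4) (by positivity)
  refine ⟨N, fun n hn => ?_⟩
  have hN' := hN n hn
  rw [Real.dist_eq] at hN' ⊢
  have hpc : Continuous (fun x => p.eval x) := p.continuous
  have hd : ∀ x ∈ Icc (0:ℝ) 1, |h x - p.eval x| ≤ δ := by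
    intro x hx
    rw [abs_sub_comm]
    exact (hp x hx).le
  have h1 := Iw_diff V hM hh hpc hδ.le hd n
  have h2 := Iw_diff V hM hh hpc hδ.le hd N
  have h3 : δ * M ≤ ε / 4 := by
    rw [hδdef, div_mul_eq_mul_div, div_le_div_iff₀ (by positivity) (by norm_num)]
    nlinarith
  have h4 : Iw ν w n h - Iw ν w N h =
      (Iw ν w n h - Iw ν w n (fun x => p.eval x)) +
      (Iw ν w n (fun x => p.eval x) - Iw ν w N (fun x => p.eval x)) -
      (Iw ν w N h - Iw ν w N (fun x => p.eval x)) := by ring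
  rw [h4]
  calc |_| ≤ |Iw ν w n h - Iw ν w n (fun x => p.eval x)| +
        |Iw ν w n (fun x => p.eval x) - Iw ν w N (fun x => p.eval x)| +
        |Iw ν w N h - Iw ν w N (fun x => p.eval x)| := by
          refine (abs_sub _ _).trans ?_
          gcongr
          exact abs_add_le _ _
    _ < ε := by linarith

/-- the limit functional -/
noncomputable def Lw (ν : ℕ → Measure ℝ) (w : ℕ → ℝ) (h : ℝ → ℝ) : ℝ :=
  limUnder atTop (fun d => Iw ν w d h)

theorem tendsto_Lw (V : VData ν w c) {h : ℝ → ℝ} (hh : Continuous h) :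
    Tendsto (fun d => Iw ν w d h) atTop (𝓝 (Lw ν w h)) := by
  obtain ⟨l, hl⟩ := Iw_cauchy V hh
  unfold Lw
  rw [hl.limUnder_eq]
  exact hl

theorem Lw_add (V : VData ν w c) {h g : ℝ → ℝ} (hh : Continuous h) (hg : Continuous g) :
    Lw ν w (fun x => h x + g x) = Lw ν w h + Lw ν w g := by
  refine tendsto_nhds_unique (tendsto_Lw V (hh.add hg))
    (((tendsto_Lw V hh).add (tendsto_Lw V hg)).congr fun d => ?_)
  unfold Iw
  rw [← mul_add, ← integral_add (integrable_vd V d (by fun_prop))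
    (integrable_vd V d (by fun_prop))]
  congr 1
  apply integral_congr_ae
  refine ae_of_all _ fun x => ?_
  simp only
  ring

theorem Lw_smul (V : VData ν w c) {h : ℝ → ℝ} (hh : Continuous h) (a : ℝ) :
    Lw ν w (fun x => a * h x) = a * Lw ν w h := by
  refine tendsto_nhds_unique (tendsto_Lw V (hh.const_mul a))
    (((tendsto_Lw V hh).const_mul a).congr fun d => ?_)
  unfold Iw
  rw [mul_left_comm, ← integral_const_mul]
  congr 1
  apply integral_congr_ae
  refine ae_of_all _ fun x => ?_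
  simp only
  ring

theorem Lw_nonneg (V : VData ν w c) {h : ℝ → ℝ} (hh : Continuous h) (h0 : ∀ x, 0 ≤ h x) :
    0 ≤ Lw ν w h := by
  refine ge_of_tendsto' (tendsto_Lw V hh) fun d => ?_
  unfold Iw
  exact mul_nonneg (V.wpos d) (integral_nonneg fun x => mul_nonneg (h0 x) (sq_nonneg x))

/-- positive linear functional -/
noncomputable def LamW (V : VData ν w c) : C_c(ℝ, ℝ) →ₚ[ℝ] ℝ :=
  PositiveLinearMap.mk₀
    { toFun := fun f => Lw ν w f
      map_add' := fun f g => by
        exact Lw_add V f.continuous g.continuous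
      map_smul' := fun a f => by
        exact Lw_smul V f.continuous a }
    (fun f hf => Lw_nonneg V f.continuous fun x => hf x)

theorem LamW_apply (V : VData ν w c) (f : C_c(ℝ, ℝ)) : LamW V f = Lw ν w f := rfl

theorem exists_vague (V : VData ν w c) (hc1 : 0 < c 1) :
    ∃ μ : Measure ℝ, μ (Iic 0) = 0 ∧ (∀ a b : ℝ, 0 < a → μ (Icc a b) < ⊤) ∧ μ ≠ 0 ∧
      ∀ f : ℝ → ℝ, Continuous f → HasCompactSupport f → tsupport f ⊆ Ioi 0 →
        Tendsto (fun d => w d * ∫ x, f x ∂(ν d)) atTop (𝓝 (∫ x, f x ∂μ)) := by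
  set ρ := RealRMK.rieszMeasure (LamW V) with hρ
  have hρint : ∀ h : C_c(ℝ, ℝ), ∫ x, h x ∂ρ = Lw ν w h := fun h => by
    rw [hρ, RealRMK.integral_rieszMeasure]; rfl
  set μ : Measure ℝ := (ρ.restrict (Ioi 0)).withDensity
    (fun x => ENNReal.ofReal ((x ^ 2)⁻¹)) with hμ
  have hmeas : Measurable (fun x : ℝ => ENNReal.ofReal ((x ^ 2)⁻¹)) := by fun_prop
  have hμ1 : μ (Iic 0) = 0 := by
    rw [hμ, withDensity_apply _ measurableSet_Iic, Measure.restrict_restrict measurableSet_Iic]
    have : Iic (0:ℝ) ∩ Ioi 0 = ∅ := by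
      ext x; simp
    rw [this]
    simp
  have hμ2 : ∀ a b : ℝ, 0 < a → μ (Icc a b) < ⊤ := by
    intro a b ha
    rw [hμ, withDensity_apply _ measurableSet_Icc]
    calc ∫⁻ x in Icc a b, ENNReal.ofReal ((x ^ 2)⁻¹) ∂(ρ.restrict (Ioi 0))
        ≤ ∫⁻ x in Icc a b, ENNReal.ofReal ((a ^ 2)⁻¹) ∂(ρ.restrict (Ioi 0)) := by
          apply setLIntegral_mono measurable_const
          intro x hx
          apply ENNReal.ofReal_le_ofReal
          have hx1 := hx.1
          gcongr
      _ = ENNReal.ofReal ((a ^ 2)⁻¹) * (ρ.restrict (Ioi 0)) (Icc a b) := by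
          rw [setLIntegral_const]
      _ < ⊤ := by
          apply ENNReal.mul_lt_top ENNReal.ofReal_lt_top
          calc (ρ.restrict (Ioi 0)) (Icc a b) ≤ ρ (Icc a b) := Measure.restrict_apply_le _ _
            _ < ⊤ := isCompact_Icc.measure_lt_top
  -- integral against μ
  have hμint : ∀ f : ℝ → ℝ, Continuous f → ∫ x, f x ∂μ = ∫ x in Ioi 0, (x ^ 2)⁻¹ * f x ∂ρ := by
    intro f hf
    rw [hμ, integral_withDensity_eq_integral_toReal_smul hmeas
      (ae_of_all _ fun x => ENNReal.ofReal_lt_top)]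
    apply integral_congr_ae
    refine ae_of_all _ fun x => ?_
    simp only [smul_eq_mul]
    rw [ENNReal.toReal_ofReal (by positivity)]
  have hmain : ∀ f : ℝ → ℝ, Continuous f → HasCompactSupport f → tsupport f ⊆ Ioi 0 →
        Tendsto (fun d => w d * ∫ x, f x ∂(ν d)) atTop (𝓝 (∫ x, f x ∂μ)) := by
    intro f hf hcf hsf
    obtain ⟨a, ha, hfa⟩ : ∃ a : ℝ, 0 < a ∧ ∀ x, x < a → f x = 0 := by
      by_cases hne : (tsupport f).Nonempty
      · obtain ⟨a, ha, hmin⟩ := (show IsCompact (tsupport f) from hcf).exists_isMinOn hne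
          continuousOn_id
        refine ⟨a, hsf ha, fun x hx => ?_⟩
        apply image_eq_zero_of_notMem_tsupport
        intro hxs
        have := hmin hxs
        simp at this
        linarith
      · refine ⟨1, one_pos, fun x _ => ?_⟩
        apply image_eq_zero_of_notMem_tsupport
        intro hxs
        exact hne ⟨x, hxs⟩
    set h : ℝ → ℝ := fun x => f x / (max x a) ^ 2 with hh
    have hmax : ∀ x, 0 < max x a := fun x => lt_of_lt_of_le ha (le_max_right _ _)
    have hhc : Continuous h := by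
      apply hf.div (by fun_prop)
      intro x
      exact (pow_pos (hmax x) 2).ne'
    have hhs : HasCompactSupport h := by
      apply hcf.mono
      intro x hx
      rw [Function.mem_support] at hx ⊢
      intro h0
      apply hx
      rw [hh]
      simp [h0]
    have hmul : ∀ x, h x * x ^ 2 = f x := by
      intro x
      by_cases hx : x < a
      · rw [hh]; simp [hfa x hx]
      · push Not at hx
        simp only [hh]
        rw [max_eq_left hx]
        have : x ≠ 0 := (lt_of_lt_of_le ha hx).ne'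
        field_simp
    have h1 := tendsto_Lw V hhc
    have h2 : ∀ d, Iw ν w d h = w d * ∫ x, f x ∂(ν d) := by
      intro d
      unfold Iw
      simp only [hmul]
    simp only [h2] at h1
    have h3 : ∫ x, f x ∂μ = Lw ν w h := by
      rw [hμint f hf]
      have h4 := hρint ⟨⟨h, hhc⟩, hhs⟩
      rw [show (Lw ν w h : ℝ) = Lw ν w ((⟨⟨h, hhc⟩, hhs⟩ : C_c(ℝ, ℝ)) : ℝ → ℝ) from rfl, ← h4]
      rw [← integral_indicator measurableSet_Ioi]
      apply integral_congr_ae
      refine ae_of_all _ fun x => ?_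
      show (Ioi (0:ℝ)).indicator (fun x => (x ^ 2)⁻¹ * f x) x = h x
      by_cases hx : x < a
      · rw [hh]
        simp [hfa x hx, indicator]
      · push Not at hx
        have hx0 : 0 < x := lt_of_lt_of_le ha hx
        rw [indicator_of_mem (by exact hx0)]
        simp only [hh]
        rw [max_eq_left hx]
        field_simp
    rw [h3]
    exact h1
  refine ⟨μ, hμ1, hμ2, ?_, hmain⟩
  intro hμ0
  -- then ρ (Ioi 0) = 0
  have h1 : ρ (Ioi 0) = 0 := by
    have h2 : ∫⁻ x in Ioi 0, ENNReal.ofReal ((x ^ 2)⁻¹) ∂ρ = 0 := by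
      have h3 : μ univ = 0 := by rw [hμ0]; simp
      rw [hμ, withDensity_apply _ MeasurableSet.univ, Measure.restrict_univ] at h3
      exact h3
    rw [lintegral_eq_zero_iff hmeas] at h2
    rw [Filter.EventuallyEq, ae_restrict_iff' measurableSet_Ioi] at h2
    rw [← compl_compl (Ioi (0:ℝ)), ← mem_ae_iff]
    filter_upwards [h2] with x hx hx0
    have h4 := hx hx0
    simp only [Pi.zero_apply, ENNReal.ofReal_eq_zero] at h4
    have h5 : (0:ℝ) < (x ^ 2)⁻¹ := by
      have : (0:ℝ) < x := hx0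
      positivity
    linarith
  -- test function
  set h0 : ℝ → ℝ := fun x => max 0 (min x (2 - x)) with hh0
  have hh0c : Continuous h0 := by fun_prop
  have hh0s : HasCompactSupport h0 := by
    apply HasCompactSupport.intro (isCompact_Icc (a := (0:ℝ)) (b := 2))
    intro x hx
    rw [mem_Icc, not_and_or] at hx
    simp only [hh0]
    apply max_eq_left
    rcases hx with hx | hx
    · push Not at hx
      exact (min_le_left _ _).trans hx.le
    · push Not at hx
      exact (min_le_right _ _).trans (by linarith)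
  have h2 := hρint ⟨⟨h0, hh0c⟩, hh0s⟩
  have h3 : ∫ x, h0 x ∂ρ = 0 := by
    apply integral_eq_zero_of_ae
    have : ∀ᵐ x ∂ρ, x ∉ Ioi (0:ℝ) := by
      rw [ae_iff]
      simp only [not_not]
      exact h1
    filter_upwards [this] with x hx
    simp only [mem_Ioi, not_lt] at hx
    simp only [hh0, Pi.zero_apply]
    exact max_eq_left ((min_le_left _ _).trans hx)
  have h4 : Lw ν w h0 = c 1 := by
    refine tendsto_nhds_unique (tendsto_Lw V hh0c) ((V.lim 1).congr fun d => ?_)
    unfold Iw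
    congr 1
    apply integral_congr_ae
    filter_upwards [V.supp d] with x hx
    have : h0 x = x := by
      simp only [hh0]
      rw [min_eq_left (by linarith [hx.1, hx.2]), max_eq_right hx.1]
    rw [this]
    ring
  have h5 : Lw ν w h0 = 0 := by
    rw [← h3]
    exact h2.symm
  rw [h4] at h5
  exact hc1.ne' h5

end

end Pool.Agent.Lib.MP_da621d_pr
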