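import Mathlib
import Pool.Agent.Lib.MP_da621d_pr.Sphere
import Pool.Agent.Lib.MP_da621d_pr.Vague

namespace Pool.Agent.Lib.MP_da621d_pr

open MeasureTheory ProbabilityTheory Set Filter
open scoped ENNReal NNReal Topology

theorem exists_const (k : ℕ) : ∃ c : ℝ, 0 < c ∧
    Tendsto (fun d : ℕ => ((2:ℝ) ^ (d + 1) * ((d + 1 : ℕ) : ℝ)) *
      ∫ x, x ^ (k + 2) ∂(alphaLaw (d + 1))) atTop (𝓝 c) := by
  obtain ⟨c, hc0, hct, hc⟩ := tendsto_mom (k + 1) (Nat.succ_pos k)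
  refine ⟨c.toReal, ENNReal.toReal_pos hc0 hct, ?_⟩
  have h1 := (ENNReal.tendsto_toReal hct).comp hc
  have h2 := (tendsto_add_atTop_iff_nat 1).mpr h1
  refine h2.congr fun d => ?_
  simp only [Function.comp]
  rw [alphaLaw_moment, ENNReal.toReal_mul, ENNReal.toReal_mul, ENNReal.toReal_pow,
    ENNReal.toReal_natCast]
  simp

theorem final : ∃ μ : Measure ℝ, μ (Iic 0) = 0 ∧ (∀ a b : ℝ, 0 < a → μ (Icc a b) < ⊤) ∧
    μ ≠ 0 ∧ ∀ f : ℝ → ℝ, Continuous f → HasCompactSupport f → tsupport f ⊆ Ioi 0 →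
      Tendsto (fun d : ℕ => ((2:ℝ) ^ d * (d : ℝ)) * ∫ x, f x ∂(alphaLaw d)) atTop
        (𝓝 (∫ x, f x ∂μ)) := by
  choose c hc0 hc using exists_const
  have V : VData (fun d => alphaLaw (d + 1)) (fun d => (2:ℝ) ^ (d + 1) * ((d + 1 : ℕ) : ℝ)) c :=
    { prob := fun d => by
        have := alphaLaw_prob d
        infer_instance
      supp := fun d => alphaLaw_supp d
      wpos := fun d => by positivity
      lim := hc }
  obtain ⟨μ, h1, h2, h3, h4⟩ := exists_vague V (hc0 1)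
  refine ⟨μ, h1, h2, h3, fun f hf hcf hsf => ?_⟩
  rw [← tendsto_add_atTop_iff_nat 1]
  exact h4 f hf hcf hsf

end Pool.Agent.Lib.MP_da621d_pr
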